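import Mathlib
import Pool.Agent.Results.MP_12274d_pr.ExponentialLowerBound

set_option autoImplicit false

/-!
# Bootstrap percolation on Galton–Watson trees: moment lower bounds

We build on the development of `MP_12274d_pr.ExponentialLowerBound` (definitions of the tree, of the
critical probability, forts), and extend it to offspring distributions which may charge `0`.
-/

open MeasureTheory Set Filter
open scoped ENNReal unitInterval Topology

namespace Pool.Agent.U151.GWB

open Pool.Agent.Results.MP_12274d_pr.ExponentialLowerBound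

/-! ### The level -/

lemma one_sub_B (k s : ℕ) {y : ℝ} (h0 : 0 ≤ y) (h1 : y ≤ 1) :
    1 - B k s y ≤ ((k : ℝ) * y) ^ (s + 1) := by
  rcases Nat.lt_or_ge k (s + 1) with hk | hk
  · -- then `B = 1`
    have h2 : B k s y = 1 := by
      have h3 : ∀ d : ℕ, B k (k + d) y = 1 := by
        intro d
        induction d with
        | zero => exact B_self k y
        | succ d ih =>
          rw [← add_assoc, B_succ, ih, Nat.choose_eq_zero_of_lt (by omega)]
          simp
      obtain ⟨d, rfl⟩ : ∃ d, s = k + d := ⟨s - k, by omega⟩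
      exact h3 d
    rw [h2, sub_self]
    positivity
  · -- derivative bound
    have hmono : MonotoneOn (fun x : ℝ => B k s x + ((k : ℝ) * x) ^ (s + 1)) (Icc 0 1) := by
      have hder : ∀ x : ℝ, HasDerivAt (fun x : ℝ => B k s x + ((k : ℝ) * x) ^ (s + 1))
          (-(((s + 1 : ℕ) : ℝ) * (k.choose (s + 1) : ℝ) * x ^ s * (1 - x) ^ (k - s - 1)) +
            ((s + 1 : ℕ) : ℝ) * ((k : ℝ) * x) ^ s * k) x := by
        intro x
        have h2 := ((hasDerivAt_id x).const_mul (k : ℝ)).fun_pow (s + 1)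
        refine ((B_deriv k s x).fun_add h2).congr_deriv ?_
        simp
      apply monotoneOn_of_deriv_nonneg (convex_Icc 0 1)
      · exact (continuous_iff_continuousAt.2 fun x => (hder x).continuousAt).continuousOn
      · intro x _
        exact (hder x).differentiableAt.differentiableWithinAt
      · intro x hx
        rw [interior_Icc] at hx
        rw [(hder x).deriv]
        have hx0 : 0 ≤ x := hx.1.le
        have hx1 : 0 ≤ 1 - x := by linarith [hx.2]
        have e1 : (1 - x) ^ (k - s - 1) ≤ 1 := pow_le_one₀ hx1 (by linarith [hx.1])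
        have e2 : (k.choose (s + 1) : ℝ) ≤ (k : ℝ) ^ (s + 1) := by
          exact_mod_cast Nat.choose_le_pow k (s + 1)
        have e3 : (k.choose (s + 1) : ℝ) * x ^ s * (1 - x) ^ (k - s - 1) ≤
            (k : ℝ) ^ (s + 1) * x ^ s * 1 := by gcongr
        have e4 : ((k : ℝ) * x) ^ s * k = (k : ℝ) ^ (s + 1) * x ^ s := by
          rw [mul_pow, pow_succ]; ring
        have hs : (0 : ℝ) ≤ ((s + 1 : ℕ) : ℝ) := by positivity
        have e5 := mul_le_mul_of_nonneg_left e3 hs
        have e6 : ((s + 1 : ℕ) : ℝ) * ((k : ℝ) * x) ^ s * k =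
            ((s + 1 : ℕ) : ℝ) * ((k : ℝ) ^ (s + 1) * x ^ s * 1) := by
          rw [mul_assoc, e4]; ring
        rw [e6]
        linarith
    have h2 := hmono ⟨le_refl _, zero_le_one⟩ ⟨h0, h1⟩ h0
    simp only [B_zero, mul_zero] at h2
    rw [zero_pow (by omega)] at h2
    linarith

/-- `P (Bin (k, y) ≥ r) ≤ (k y) ^ (1 + α)` if `1 + α ≤ r`. -/
lemma one_sub_B_rpow (k r : ℕ) (hr : 1 ≤ r) {α : ℝ} (h1α : 0 < 1 + α) (hα : 1 + α ≤ r) {y : ℝ}
    (h0 : 0 ≤ y) (h1 : y ≤ 1) : 1 - B k (r - 1) y ≤ ((k : ℝ) * y) ^ (1 + α) := by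
  have hky : 0 ≤ (k : ℝ) * y := by positivity
  rcases le_total 1 ((k : ℝ) * y) with h | h
  · have h2 := B_nonneg k (r - 1) h0 h1
    have h3 : 1 ≤ ((k : ℝ) * y) ^ (1 + α) := Real.one_le_rpow h h1α.le
    linarith
  · have h2 := one_sub_B k (r - 1) h0 h1
    have h3 : r - 1 + 1 = r := by omega
    rw [h3] at h2
    refine h2.trans ?_
    rcases hky.eq_or_lt with h4 | h4
    · rw [← h4, zero_pow (by omega), Real.zero_rpow (by linarith)]
    · rw [← Real.rpow_natCast]
      exact Real.rpow_le_rpow_of_exponent_ge h4 h hα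

lemma hasSum_pmf (ξ : PMF ℕ) : HasSum (fun k => (ξ k).toReal) 1 := by
  have h1 : HasSum (fun k => ξ k) 1 := ξ.hasSum_coe_one
  have h2 := (ENNReal.hasSum_toReal (f := fun k => ξ k) (by rw [h1.tsum_eq]; simp))
  rw [← ENNReal.tsum_toReal_eq (fun k => PMF.apply_ne_top ξ k), h1.tsum_eq] at h2
  simpa using h2

/-- The level `y`. -/
lemma level (ξ : PMF ℕ) (r : ℕ) (hr : 1 ≤ r) {α : ℝ} (hα0 : 0 < α) (hα : 1 + α ≤ r) {m : ℝ}
    (hm : HasSum (fun k : ℕ => (ξ k).toReal * (k : ℝ) ^ (1 + α)) m) (hm1 : 1 ≤ m)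
    {p : ℝ} (hp0 : 0 ≤ p) (hp : p < 1 / 2 * (2 * m) ^ (-(1 / α))) :
    ∃ y : ℝ, 0 ≤ y ∧ y < 1 ∧ 1 - y ≤ (1 - p) * ∑' k, (ξ k).toReal * B k (r - 1) y := by
  set y : ℝ := (2 * m) ^ (-(1 / α)) with hy
  have h2m : 1 < 2 * m := by linarith
  have hy0 : 0 < y := by positivity
  have hy1 : y < 1 := by
    rw [hy]
    apply Real.rpow_lt_one_of_one_lt_of_neg h2m
    have : 0 < 1 / α := by positivity
    linarith
  have hyα : y ^ α = 1 / (2 * m) := by
    rw [hy, ← Real.rpow_mul (by linarith)]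
    have : -(1 / α) * α = -1 := by field_simp
    rw [this, Real.rpow_neg_one, one_div]
  refine ⟨y, hy0.le, hy1, ?_⟩
  have hw1 := hasSum_pmf ξ
  have hsum : Summable (fun k => (ξ k).toReal * B k (r - 1) y) := by
    refine Summable.of_nonneg_of_le
      (fun k => mul_nonneg ENNReal.toReal_nonneg (B_nonneg k _ hy0.le hy1.le)) (fun k => ?_)
      hw1.summable
    exact mul_le_of_le_one_right ENNReal.toReal_nonneg (B_le_one k _ hy0.le hy1.le)
  have h1 : 1 - y ^ (1 + α) * m ≤ ∑' k, (ξ k).toReal * B k (r - 1) y := by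
    have h2 := hw1.sub (hm.mul_left (y ^ (1 + α)))
    refine hasSum_le (fun k => ?_) h2 hsum.hasSum
    have h3 := one_sub_B_rpow k r hr (by linarith : (0 : ℝ) < 1 + α) hα hy0.le hy1.le
    have h4 : (0 : ℝ) ≤ (ξ k).toReal := ENNReal.toReal_nonneg
    rw [Real.mul_rpow (by positivity) hy0.le] at h3
    have h5 := mul_le_mul_of_nonneg_left h3 h4
    nlinarith
  have h2 : y ^ (1 + α) * m = y / 2 := by
    rw [Real.rpow_add hy0, Real.rpow_one, hyα]
    field_simp
  rw [h2] at h1
  have hp1 : 0 ≤ 1 - p := by linarith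
  have h3 := mul_le_mul_of_nonneg_left h1 hp1
  refine le_trans ?_ h3
  nlinarith

/-! ### Finite and infinite trees -/

/-- The tree is finite. -/
def Fin' : Set (List ℕ → ℕ × Bool) := {z | {v | InTree (off z) v}.Finite}

lemma meas_Fin : MeasurableSet Fin' := by
  have h1 : Fin' = ⋃ F : Finset (List ℕ), ⋂ v : List ℕ,
      ({z : List ℕ → ℕ × Bool | InTree (off z) v}ᶜ ∪ {_z | v ∈ F}) := by
    ext z
    simp only [Fin', Set.mem_ofPred_eq, Set.mem_iUnion, Set.mem_iInter, Set.mem_union,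
      Set.mem_compl_iff]
    constructor
    · intro h
      refine ⟨h.toFinset, fun v => ?_⟩
      by_cases hv : InTree (off z) v
      · right; rw [Set.Finite.mem_toFinset]; exact hv
      · exact Or.inl hv
    · rintro ⟨F, hF⟩
      apply F.finite_toSet.subset
      intro v hv
      rcases hF v with h | h
      · exact absurd hv h
      · exact h
  rw [h1]
  refine MeasurableSet.iUnion fun F => MeasurableSet.iInter fun v => ?_
  refine (meas_InTree v).compl.union ?_
  by_cases hv : v ∈ F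
  · simp [hv]
  · simp [hv]

lemma mem_Fin_iff (z : List ℕ → ℕ × Bool) :
    z ∈ Fin' ↔ ∀ i ∈ Finset.range (z []).1, sub z i ∈ Fin' := by
  constructor
  · intro h i hi
    rw [Finset.mem_range] at hi
    have h1 : {v | InTree (off z) v}.Finite := h
    have h2 : (fun v : List ℕ => i :: v) '' {v | InTree (off (sub z i)) v} ⊆
        {v | InTree (off z) v} := by
      rintro _ ⟨v, hv, rfl⟩
      exact ⟨hi, hv⟩
    exact Set.Finite.of_finite_image (h1.subset h2) (fun a _ b _ h => by simpa using h)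
  · intro h
    have h1 : {v | InTree (off z) v} ⊆ {[]} ∪ ⋃ i ∈ Finset.range (z []).1,
        (fun v : List ℕ => i :: v) '' {v | InTree (off (sub z i)) v} := by
      intro v hv
      cases v with
      | nil => left; rfl
      | cons i v =>
        right
        rw [Set.mem_iUnion₂]
        exact ⟨i, Finset.mem_range.2 hv.1, v, hv.2, rfl⟩
    refine Set.Finite.subset ?_ h1
    refine (Set.finite_singleton _).union ?_
    exact Set.Finite.biUnion (Finset.finite_toSet _) fun i hi => (h i hi).image _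

/-- The root has `k` children, all in `E`. -/
def allIn (E : Set (List ℕ → ℕ × Bool)) (k : ℕ) : Set (List ℕ → ℕ × Bool) :=
  {z | z [] ∈ ({q : ℕ × Bool | q.1 ∈ ({k} : Set ℕ)}) ∧ ∀ i ∈ Finset.range k, sub z i ∈ E}

lemma lab_fst (ξ : PMF ℕ) (p : I) (k : ℕ) : lab ξ p {q : ℕ × Bool | q.1 ∈ ({k} : Set ℕ)} = ξ k := by
  have h1 : {q : ℕ × Bool | q.1 ∈ ({k} : Set ℕ)} = {k} ×ˢ Set.univ := by
    ext q; simp
  rw [lab, h1, Measure.prod_prod, measure_univ, mul_one,
    PMF.toMeasure_apply_singleton _ _ (MeasurableSet.singleton k)]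

lemma law_allIn (ξ : PMF ℕ) (p : I) {E : Set (List ℕ → ℕ × Bool)} (hE : MeasurableSet E) (k : ℕ) :
    law ξ p (allIn E k) = ξ k * (law ξ p E) ^ k := by
  have h1 := key (lab ξ p) (R := {q : ℕ × Bool | q.1 ∈ ({k} : Set ℕ)})
    (measurable_fst (MeasurableSet.singleton k)) (Finset.range k)
    (E := fun _ => E) (fun _ => hE)
  rw [lab_fst, Finset.prod_const, Finset.card_range] at h1
  exact h1

lemma meas_allIn {E : Set (List ℕ → ℕ × Bool)} (hE : MeasurableSet E) (k : ℕ) :
    MeasurableSet (allIn E k) := by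
  have h1 : allIn E k = (fun z : List ℕ → ℕ × Bool => z []) ⁻¹'
      {q : ℕ × Bool | q.1 ∈ ({k} : Set ℕ)} ∩
      ⋂ i ∈ Finset.range k, (fun z : List ℕ → ℕ × Bool => sub z i) ⁻¹' E := by
    ext z
    simp [allIn]
  rw [h1]
  exact ((measurable_pi_apply []) (measurable_fst (MeasurableSet.singleton k))).inter
    (Finset.measurableSet_biInter _ fun i _ => measurable_sub i hE)

lemma Fin_eq : Fin' = ⋃ k : ℕ, allIn Fin' k := by
  ext z
  rw [mem_Fin_iff, Set.mem_iUnion]
  constructor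
  · intro h
    exact ⟨(z []).1, rfl, h⟩
  · rintro ⟨k, hk, h⟩
    have : (z []).1 = k := hk
    rw [this]
    exact h

lemma law_Fin (ξ : PMF ℕ) (p : I) :
    law ξ p Fin' = ∑' k, ξ k * (law ξ p Fin') ^ k := by
  conv_lhs => rw [Fin_eq]
  rw [measure_iUnion]
  · simp only [law_allIn ξ p meas_Fin]
  · intro k l hkl
    rw [Function.onFun, Set.disjoint_left]
    rintro z ⟨h1, -⟩ ⟨h2, -⟩
    apply hkl
    have e1 : (z []).1 = k := h1
    have e2 : (z []).1 = l := h2
    rw [← e1, ← e2]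
  · intro k
    exact meas_allIn meas_Fin k

lemma law_Nn_le (ξ : PMF ℕ) (p : I) {A : Set (List ℕ → ℕ × Bool)} (hA : MeasurableSet A) :
    law ξ p (Nn A) ≤ ∑' k, ξ k * (law ξ p (Nn A)) ^ k := by
  have h1 : Nn A ⊆ ⋃ k : ℕ, allIn (Nn A) k := by
    intro z hz
    rw [Set.mem_iUnion]
    refine ⟨(z []).1, rfl, fun i hi => ?_⟩
    rw [Finset.mem_range] at hi
    exact Nn_sub hz i hi
  refine (measure_mono h1).trans ((measure_iUnion_le _).trans (le_of_eq ?_))
  simp only [law_allIn ξ p (meas_Nn hA)]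

lemma real_tsum (ξ : PMF ℕ) {x : ℝ≥0∞} (hx : x ≤ 1) :
    Summable (fun k => (ξ k).toReal * x.toReal ^ k) ∧
    (∑' k, ξ k * x ^ k).toReal = ∑' k, (ξ k).toReal * x.toReal ^ k := by
  have hx' : x.toReal ≤ 1 := by
    rw [← ENNReal.toReal_one]
    exact ENNReal.toReal_mono ENNReal.one_ne_top hx
  constructor
  · refine Summable.of_nonneg_of_le (fun k => by positivity) (fun k => ?_) (hasSum_pmf ξ).summable
    exact mul_le_of_le_one_right ENNReal.toReal_nonneg (pow_le_one₀ ENNReal.toReal_nonneg hx')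
  · rw [ENNReal.tsum_toReal_eq]
    · congr 1
      ext k
      rw [ENNReal.toReal_mul, ENNReal.toReal_pow]
    · intro k
      exact ENNReal.mul_ne_top (PMF.apply_ne_top ξ k)
        (ENNReal.pow_ne_top (ne_top_of_le_ne_top ENNReal.one_ne_top hx))

/-- convexity of the generating function -/
lemma fixed_point (w : ℕ → ℝ) (hw0 : ∀ k, 0 ≤ w k) (hw1 : HasSum w 1) {e u : ℝ} (he0 : 0 ≤ e)
    (heu : e ≤ u) (hu1 : u < 1) (hsu : Summable fun k => w k * u ^ k)
    (he : HasSum (fun k => w k * e ^ k) e) (hu : u ≤ ∑' k, w k * u ^ k)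
    {k₀ : ℕ} (hk₀ : 2 ≤ k₀) (hw : 0 < w k₀) : e = u := by
  by_contra hne
  have hlt : e < u := lt_of_le_of_ne heu hne
  set l : ℝ := (1 - u) / (1 - e) with hl
  have h1e : 0 < 1 - e := by linarith
  have hl0 : 0 < l := div_pos (by linarith) h1e
  have hl1 : l < 1 := by rw [hl, div_lt_one h1e]; linarith
  have hul : u = l * e + (1 - l) * 1 := by
    have : l * (1 - e) = 1 - u := by rw [hl]; field_simp
    linarith
  have hle : ∀ k, u ^ k ≤ l * e ^ k + (1 - l) * 1 := by
    intro k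
    have h := (convexOn_pow (𝕜 := ℝ) k).2 (x := e) (y := 1) (Set.mem_Ici.2 he0)
      (Set.mem_Ici.2 zero_le_one) hl0.le (by linarith : 0 ≤ 1 - l) (by ring)
    simp only [smul_eq_mul, one_pow] at h
    rw [← hul] at h
    exact h
  have hlt' : u ^ k₀ < l * e ^ k₀ + (1 - l) * 1 := by
    have h := (strictConvexOn_pow hk₀).2 (x := e) (y := 1) (Set.mem_Ici.2 he0)
      (Set.mem_Ici.2 zero_le_one) (by linarith) hl0 (by linarith : 0 < 1 - l) (by ring)
    simp only [smul_eq_mul, one_pow] at h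
    rw [← hul] at h
    exact h
  have hs : HasSum (fun k => w k * (l * e ^ k + (1 - l) * 1)) (l * e + (1 - l) * 1) := by
    have h1 := (he.mul_left l).add (hw1.mul_left (1 - l))
    refine h1.congr_fun ?_ |> fun h => h
    intro k
    ring
  have h2 : ∑' k, w k * u ^ k < l * e + (1 - l) * 1 :=
    hasSum_lt (fun k => mul_le_mul_of_nonneg_left (hle k) (hw0 k))
      (mul_lt_mul_of_pos_left hlt' hw) hsu.hasSum hs
  rw [← hul] at h2
  linarith

/-! ### The event seen from infinite trees -/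

lemma shift_cons {X : Type} (z : List ℕ → X) (i : ℕ) (v : List ℕ) :
    shift z (i :: v) = shift (sub z i) v := rfl

lemma Fin_sub_Nn (A : Set (List ℕ → ℕ × Bool)) : Fin' ⊆ Nn (A ∩ Fin'ᶜ) := by
  have h1 : ∀ v : List ℕ, ∀ z ∈ Fin', InTree (off z) v → shift z v ∈ Fin' := by
    intro v
    induction v with
    | nil =>
      intro z hz _
      exact hz
    | cons i v ih =>
      intro z hz hv
      rw [shift_cons]
      exact ih (sub z i) ((mem_Fin_iff z).1 hz i (Finset.mem_range.2 hv.1)) hv.2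
  intro z hz v hv hcon
  exact hcon.2 (h1 v z hz hv)

/-- If `law Fin' < 1` then `A ∩ Fin'ᶜ` has positive probability. -/
lemma pos_inter (ξ : PMF ℕ) (p : I) (hp : (p : ℝ) < 1) (s : ℕ) (hs : 1 ≤ s)
    {E : Set (List ℕ → ℕ × Bool)} (hE : MeasurableSet E) (hEpos : 0 < (law ξ p).real E)
    (hFin : (law ξ p).real Fin' < 1) (k : ℕ) (hk : 1 ≤ k) (hk' : ξ k ≠ 0) :
    0 < (law ξ p).real (Phi s E ∩ Fin'ᶜ) := by
  have hk'' : 0 < (ξ k).toReal := ENNReal.toReal_pos hk' (PMF.apply_ne_top ξ k)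
  have hp1 : (0 : ℝ) < 1 - p := by linarith
  set D : ℕ → Set (List ℕ → ℕ × Bool) := fun i => if i = 0 then Fin'ᶜ else E with hD
  have hDm : ∀ i, MeasurableSet (D i) := by
    intro i
    rw [hD]
    dsimp only
    split_ifs
    · exact meas_Fin.compl
    · exact hE
  have h1 := key_real ξ p (MeasurableSet.singleton (k, false)) (Finset.range k) hDm
  have h2 : {z : List ℕ → ℕ × Bool | z [] ∈ ({(k, false)} : Set (ℕ × Bool)) ∧
      ∀ i ∈ Finset.range k, sub z i ∈ D i} ⊆ Phi s E ∩ Fin'ᶜ := by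
    rintro z ⟨hz1, hz2⟩
    rw [Set.mem_singleton_iff] at hz1
    refine ⟨⟨by rw [hz1], {0}, ?_, by simpa using hs, ?_⟩, ?_⟩
    · rw [hz1]
      intro i hi
      rw [Finset.mem_singleton] at hi
      rw [Finset.mem_range, hi]
      exact hk
    · rw [hz1]
      intro i hi hi0
      rw [Finset.mem_singleton] at hi0
      have := hz2 i hi
      rw [hD] at this
      dsimp only at this
      rwa [if_neg hi0] at this
    · intro hfin
      rw [mem_Fin_iff, hz1] at hfin
      have h3 := hfin 0 (Finset.mem_range.2 hk)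
      have h4 := hz2 0 (Finset.mem_range.2 hk)
      rw [hD] at h4
      dsimp only at h4
      rw [if_pos rfl] at h4
      exact h4 h3
  refine lt_of_lt_of_le ?_ (measureReal_mono h2 (measure_ne_top _ _))
  rw [h1, lab_single]
  apply mul_pos (mul_pos hk'' hp1)
  apply Finset.prod_pos
  intro i _
  rw [hD]
  dsimp only
  split_ifs
  · rw [probReal_compl_eq_one_sub meas_Fin]
    linarith
  · exact hEpos

/-- On an infinite tree, some vertex sees `A`, if `A ∩ Fin'ᶜ` has positive probability. -/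
lemma ae_sees (ξ : PMF ℕ) (p : I) {A : Set (List ℕ → ℕ × Bool)} (hA : MeasurableSet A)
    (hpos : 0 < (law ξ p).real (A ∩ Fin'ᶜ)) (k : ℕ) (hk : 2 ≤ k) (hk' : ξ k ≠ 0) :
    (law ξ p) (Nn (A ∩ Fin'ᶜ) \ Fin') = 0 := by
  have hm : MeasurableSet (A ∩ Fin'ᶜ) := hA.inter meas_Fin.compl
  have hk'' : 0 < (ξ k).toReal := ENNReal.toReal_pos hk' (PMF.apply_ne_top ξ k)
  set U : ℝ≥0∞ := law ξ p (Nn (A ∩ Fin'ᶜ)) with hU
  set e : ℝ≥0∞ := law ξ p Fin' with he
  have hU1 : U ≤ 1 := prob_le_one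
  have he1 : e ≤ 1 := prob_le_one
  have heU : e ≤ U := measure_mono (Fin_sub_Nn A)
  have hUlt : U.toReal < 1 := by
    have h1 : Nn (A ∩ Fin'ᶜ) ⊆ (A ∩ Fin'ᶜ)ᶜ := fun z hz => hz [] trivial
    have h2 : (law ξ p).real (Nn (A ∩ Fin'ᶜ)) ≤ (law ξ p).real (A ∩ Fin'ᶜ)ᶜ :=
      measureReal_mono h1 (measure_ne_top _ _)
    rw [probReal_compl_eq_one_sub hm] at h2
    have h3 : U.toReal = (law ξ p).real (Nn (A ∩ Fin'ᶜ)) := rfl
    rw [h3]
    linarith
  obtain ⟨hsU, hU2⟩ := real_tsum ξ hU1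
  obtain ⟨hse, he2⟩ := real_tsum ξ he1
  have hfe : HasSum (fun j => (ξ j).toReal * e.toReal ^ j) e.toReal := by
    have h1 : e = ∑' j, ξ j * e ^ j := law_Fin ξ p
    rw [← h1] at he2
    have h2 := hse.hasSum
    rw [← he2] at h2
    exact h2
  have hfU : U.toReal ≤ ∑' j, (ξ j).toReal * U.toReal ^ j := by
    rw [← hU2]
    apply ENNReal.toReal_mono
    · refine ne_top_of_le_ne_top ENNReal.one_ne_top ?_
      calc ∑' j, ξ j * U ^ j ≤ ∑' j, ξ j := by
            apply ENNReal.tsum_le_tsum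
            intro j
            exact mul_le_of_le_one_right' (pow_le_one' hU1 j)
        _ = 1 := ξ.tsum_coe
    · exact law_Nn_le ξ p hm
  have heq : e.toReal = U.toReal :=
    fixed_point (fun j => (ξ j).toReal) (fun j => ENNReal.toReal_nonneg) (hasSum_pmf ξ)
      ENNReal.toReal_nonneg (ENNReal.toReal_mono (ne_top_of_le_ne_top ENNReal.one_ne_top hU1) heU)
      hUlt hsU hfe hfU hk hk''
  have heq' : e = U := by
    rw [← ENNReal.ofReal_toReal (ne_top_of_le_ne_top ENNReal.one_ne_top he1), heq,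
      ENNReal.ofReal_toReal (ne_top_of_le_ne_top ENNReal.one_ne_top hU1)]
  rw [measure_sdiff (Fin_sub_Nn A) meas_Fin.nullMeasurableSet (measure_ne_top _ _), ← hU, ← he, heq',
    tsub_self]

/-- The case of a path. -/
lemma law_path (ξ : PMF ℕ) (p : I) (hp : (p : ℝ) < 1) (h1 : ξ 1 = 1) :
    (law ξ p) (Nn {z | z [] = (1, false)}) = 0 := by
  have hA : MeasurableSet {z : List ℕ → ℕ × Bool | z [] = (1, false)} := by
    have h2 : Measurable (fun z : List ℕ → ℕ × Bool => z []) := measurable_pi_apply []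
    exact h2 (MeasurableSet.singleton (1, false))
  set N : Set (List ℕ → ℕ × Bool) := Nn {z : List ℕ → ℕ × Bool | z [] = (1, false)} with hN
  have hNm : MeasurableSet N := meas_Nn hA
  have e1 := key_real ξ p (R := {(1, false)}ᶜ) (MeasurableSet.singleton _).compl {0}
    (E := fun _ => N) (fun _ => hNm)
  have e2 := key_real ξ p (R := {q : ℕ × Bool | q.1 ∈ ({1} : Set ℕ)}ᶜ)
    (measurable_fst (MeasurableSet.singleton 1)).compl ∅
    (E := fun _ => N) (fun _ => hNm)
  have e3 : (lab ξ p).real {q : ℕ × Bool | q.1 ∈ ({1} : Set ℕ)}ᶜ = 0 := by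
    have h2 : MeasurableSet {q : ℕ × Bool | q.1 ∈ ({1} : Set ℕ)} :=
      measurable_fst (MeasurableSet.singleton 1)
    rw [probReal_compl_eq_one_sub h2, Measure.real, lab_fst, h1]
    simp
  have e4 : (lab ξ p).real ({(1, false)}ᶜ : Set (ℕ × Bool)) = p := by
    rw [probReal_compl_eq_one_sub (MeasurableSet.singleton _), lab_single, h1]
    simp
  rw [e3, zero_mul] at e2
  rw [e4, Finset.prod_singleton] at e1
  have hcov : N ⊆ {z | z [] ∈ ({(1, false)}ᶜ : Set (ℕ × Bool)) ∧
        ∀ i ∈ ({0} : Finset ℕ), sub z i ∈ (fun _ : ℕ => N) i} ∪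
      {z | z [] ∈ ({q : ℕ × Bool | q.1 ∈ ({1} : Set ℕ)}ᶜ : Set (ℕ × Bool)) ∧
        ∀ i ∈ (∅ : Finset ℕ), sub z i ∈ (fun _ : ℕ => N) i} := by
    intro z hz
    by_cases h : (z []).1 = 1
    · left
      refine ⟨fun hcon => hz [] trivial hcon, ?_⟩
      intro i hi
      rw [Finset.mem_singleton] at hi
      exact Nn_sub hz i (by omega)
    · right
      refine ⟨h, ?_⟩
      intro i hi
      simp at hi
  have h2 := measureReal_mono hcov (measure_ne_top (law ξ p) _)
  have h3 := measureReal_union_le (μ := law ξ p)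
    {z | z [] ∈ ({(1, false)}ᶜ : Set (ℕ × Bool)) ∧
        ∀ i ∈ ({0} : Finset ℕ), sub z i ∈ (fun _ : ℕ => N) i}
    {z | z [] ∈ ({q : ℕ × Bool | q.1 ∈ ({1} : Set ℕ)}ᶜ : Set (ℕ × Bool)) ∧
        ∀ i ∈ (∅ : Finset ℕ), sub z i ∈ (fun _ : ℕ => N) i}
  rw [e1, e2, add_zero] at h3
  have h4 : (law ξ p).real N ≤ p * (law ξ p).real N := h2.trans h3
  have h5 : 0 ≤ (law ξ p).real N := measureReal_nonneg
  have h6 : (law ξ p).real N = 0 := by nlinarith
  rwa [measureReal_eq_zero_iff (measure_ne_top _ _)] at h6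

/-- The moment is at least `1` if the tree is infinite with positive probability. -/
lemma one_le_moment {α : ℝ} (hα0 : 0 < α) (ξ : PMF ℕ) {m : ℝ}
    (hm : HasSum (fun k : ℕ => (ξ k).toReal * (k : ℝ) ^ (1 + α)) m)
    (p : I) (hlt : (law ξ p).real Fin' < 1) : 1 ≤ m := by
  have hle : law ξ p Fin' ≤ 1 := prob_le_one
  obtain ⟨hse, he2⟩ := real_tsum ξ hle
  have hfe : HasSum (fun j => (ξ j).toReal * (law ξ p).real Fin' ^ j)
      ((law ξ p).real Fin') := by
    have h1 : law ξ p Fin' = ∑' j, ξ j * law ξ p Fin' ^ j := law_Fin ξ p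
    rw [← h1] at he2
    have h2 := hse.hasSum
    rw [← he2] at h2
    exact h2
  set e : ℝ := (law ξ p).real Fin' with he
  have he0 : 0 ≤ e := measureReal_nonneg
  have h1 := (hasSum_pmf ξ).sub hfe
  have h2 := hm.mul_right (1 - e)
  have h3 : 1 - e ≤ m * (1 - e) := by
    refine hasSum_le (fun k => ?_) h1 h2
    have h4 : (0 : ℝ) ≤ (ξ k).toReal := ENNReal.toReal_nonneg
    have h5 : 1 - e ^ k ≤ (k : ℝ) * (1 - e) := by
      have := one_add_mul_le_pow (a := e - 1) (by linarith) k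
      have h6 : 1 + (e - 1) = e := by ring
      rw [h6] at this
      linarith
    have h6 : (k : ℝ) ≤ (k : ℝ) ^ (1 + α) := by
      rcases Nat.eq_zero_or_pos k with h | h
      · rw [h]
        simp only [Nat.cast_zero]
        rw [Real.zero_rpow (by linarith)]
      · have h7 : (1 : ℝ) ≤ k := by exact_mod_cast h
        have h8 := Real.rpow_le_rpow_of_exponent_le h7 (show (1 : ℝ) ≤ 1 + α by linarith)
        rwa [Real.rpow_one] at h8
    have h7 : 1 - e ^ k ≤ (k : ℝ) ^ (1 + α) * (1 - e) :=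
      h5.trans (mul_le_mul_of_nonneg_right h6 (by linarith))
    have h8 := mul_le_mul_of_nonneg_left h7 h4
    linarith
  nlinarith

/-- Below the bound, on the infinite tree there is no percolation. -/
lemma law_perc_inf (r : ℕ) (hr : 3 ≤ r) {α : ℝ} (hα0 : 0 < α) (hα : 1 + α ≤ r) (ξ : PMF ℕ) {m : ℝ}
    (hm : HasSum (fun k : ℕ => (ξ k).toReal * (k : ℝ) ^ (1 + α)) m)
    (p : I) (hp : (p : ℝ) < 1 / 2 * (2 * m) ^ (-(1 / α))) :
    (law ξ p) ({z | Percolates (treeGraph (off z)) r {w | (z w.1).2 = true}} \ Fin') = 0 := by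
  have he1 : (law ξ p).real Fin' ≤ 1 := measureReal_le_one
  rcases he1.eq_or_lt with h1 | hlt
  · -- the tree is finite
    have h2 : law ξ p Fin'ᶜ = 0 := by
      rw [← measureReal_eq_zero_iff (measure_ne_top _ _), probReal_compl_eq_one_sub meas_Fin, h1,
        sub_self]
    exact measure_mono_null (fun z hz => hz.2) h2
  · -- the generating function
    have hle : law ξ p Fin' ≤ 1 := prob_le_one
    obtain ⟨hse, he2⟩ := real_tsum ξ hle
    have hfe : HasSum (fun j => (ξ j).toReal * (law ξ p).real Fin' ^ j)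
        ((law ξ p).real Fin') := by
      have h1 : law ξ p Fin' = ∑' j, ξ j * law ξ p Fin' ^ j := law_Fin ξ p
      rw [← h1] at he2
      have h2 := hse.hasSum
      rw [← he2] at h2
      exact h2
    set e : ℝ := (law ξ p).real Fin' with he
    have he0 : 0 ≤ e := measureReal_nonneg
    have hm1 : 1 ≤ m := one_le_moment hα0 ξ hm p hlt
    obtain ⟨y, hy0, hy1, hy⟩ := level ξ r (by omega) hα0 hα hm hm1 p.2.1 hp
    have hH := law_Hinf ξ p (r - 1) hy0 hy1.le hy (hasSum_pmf ξ)
    have hHpos : 0 < (law ξ p).real (Hinf (r - 1)) := by linarith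
    have hplt : (p : ℝ) < 1 := by
      have h1 : (1 : ℝ) / 2 * (2 * m) ^ (-(1 / α)) ≤ 1 / 2 * 1 := by
        apply mul_le_mul_of_nonneg_left _ (by norm_num)
        apply Real.rpow_le_one_of_one_le_of_nonpos (by linarith)
        have : 0 < 1 / α := by positivity
        linarith
      linarith
    by_cases hk : ∃ k, 2 ≤ k ∧ ξ k ≠ 0
    · obtain ⟨k, hk, hk'⟩ := hk
      have hpos := pos_inter ξ p hplt (r - 2) (by omega) (meas_Hinf (r - 1)) hHpos hlt k
        (by omega) hk'
      have h1 := ae_sees ξ p (meas_Phi (r - 2) (meas_Hinf (r - 1))) hpos k hk hk'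
      refine measure_mono_null ?_ h1
      rintro z ⟨hz1, hz2⟩
      refine ⟨?_, hz2⟩
      intro v hv hcon
      exact not_percolates r (by omega) z v hv hcon.1 hz1
    · push Not at hk
      have hsum1 : ξ 0 + ξ 1 = 1 := by
        rw [← ξ.tsum_coe]
        rw [tsum_eq_sum (s := {0, 1})]
        · rw [Finset.sum_pair (by norm_num)]
        · intro j hj
          simp only [Finset.mem_insert, Finset.mem_singleton, not_or] at hj
          exact hk j (by omega)
      have hsum2 : (ξ 0).toReal + (ξ 1).toReal = 1 := by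
        rw [← ENNReal.toReal_add (PMF.apply_ne_top ξ 0) (PMF.apply_ne_top ξ 1), hsum1]
        simp
      have hfe2 : e = (ξ 0).toReal + (ξ 1).toReal * e := by
        have h1 := hfe.unique (hasSum_sum_of_ne_finset_zero (s := {0, 1}) (fun j hj => by
          simp only [Finset.mem_insert, Finset.mem_singleton, not_or] at hj
          rw [hk j (by omega)]
          simp))
        rw [Finset.sum_pair (by norm_num)] at h1
        simpa using h1
      have hξ0 : (ξ 0).toReal = 0 := by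
        have h1 : (1 - e) * (1 - (ξ 1).toReal) = 0 := by linarith
        rcases mul_eq_zero.1 h1 with h | h
        · linarith
        · linarith
      have hξ1 : ξ 1 = 1 := by
        rw [← hsum1, (ENNReal.toReal_eq_zero_iff _).1 hξ0 |>.resolve_right (PMF.apply_ne_top ξ 0),
          zero_add]
      have h1 := law_path ξ p hplt hξ1
      refine measure_mono_null ?_ h1
      rintro z ⟨hz1, hz2⟩ v hv hcon
      refine not_percolates r (by omega) z v hv ?_ hz1
      have hcon' : z v = (1, false) := by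
        have : shift z v [] = (1, false) := hcon
        rwa [shift_nil_apply] at this
      refine ⟨by rw [shift_nil_apply, hcon'], {0}, ?_, ?_, ?_⟩
      · rw [shift_nil_apply, hcon']
        simp
      · simp only [Finset.card_singleton]
        omega
      · rw [shift_nil_apply, hcon']
        intro i hi hi0
        simp only [Finset.mem_range] at hi
        simp only [Finset.mem_singleton] at hi0
        omega

lemma ae_perc_inf (r : ℕ) (hr : 3 ≤ r) {α : ℝ} (hα0 : 0 < α) (hα : 1 + α ≤ r) (ξ : PMF ℕ) {m : ℝ}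
    (hm : HasSum (fun k : ℕ => (ξ k).toReal * (k : ℝ) ^ (1 + α)) m)
    (p : I) (hp : (p : ℝ) < 1 / 2 * (2 * m) ^ (-(1 / α))) :
    ∀ᵐ n ∂ gw ξ, {v | InTree n v}.Infinite → perc (treeGraph n) r p = 0 := by
  have h1 := law_perc_inf r hr hα0 hα ξ hm p hp
  rw [law, lab, ← prod_infinitePi] at h1
  have h2 := Measure.preimage_null_of_map_null (by fun_prop) h1
  have h3 := Measure.measure_ae_null_of_prod_null h2
  filter_upwards [h3] with n hn hinf
  have h4 : (Measure.infinitePi fun _ : List ℕ => bern p)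
      {ω | Percolates (treeGraph n) r {w | ω w.1 = true}} = 0 := by
    refine measure_mono_null ?_ hn
    intro ω hω
    exact ⟨hω, hinf⟩
  have h6 : (Measure.infinitePi fun _ : {v : List ℕ // InTree n v} => bern p) =
      (Measure.infinitePi fun _ : List ℕ => bern p).map
        (fun (ω : List ℕ → Bool) (v : {v : List ℕ // InTree n v}) => ω v.1) :=
    (Measure.infinitePi_map_restrict' (fun _ : List ℕ => bern p)).symm
  have h7 : Measurable (fun (ω : List ℕ → Bool) (v : {v : List ℕ // InTree n v}) => ω v.1) := by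
    rw [measurable_pi_iff]
    intro v
    exact measurable_pi_apply v.1
  have h8 := Measure.map_apply (μ := Measure.infinitePi fun _ : List ℕ => bern p) h7
    (meas_perc (treeGraph n) r)
  rw [← h6] at h8
  exact h8.trans h4

/-- If the moment is less than one, then the tree is finite. -/
lemma ae_finite {α : ℝ} (hα0 : 0 < α) (ξ : PMF ℕ) {m : ℝ}
    (hm : HasSum (fun k : ℕ => (ξ k).toReal * (k : ℝ) ^ (1 + α)) m) (hm1 : m < 1) :
    ∀ᵐ n ∂ gw ξ, ¬ {v | InTree n v}.Infinite := by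
  have h0 : (law ξ 0).real Fin' = 1 := by
    rcases (measureReal_le_one : (law ξ 0).real Fin' ≤ 1).eq_or_lt with h | h
    · exact h
    · exact absurd (one_le_moment hα0 ξ hm 0 h) (not_le.2 hm1)
  have h1 : law ξ 0 Fin'ᶜ = 0 := by
    rw [← measureReal_eq_zero_iff (measure_ne_top _ _), probReal_compl_eq_one_sub meas_Fin, h0,
      sub_self]
  rw [law, lab, ← prod_infinitePi] at h1
  have h2 := Measure.preimage_null_of_map_null (by fun_prop) h1
  have h3 := Measure.measure_ae_null_of_prod_null h2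
  filter_upwards [h3] with n hn hinf
  have h4 : (Measure.infinitePi fun _ : List ℕ => bern 0) Set.univ = 0 :=
    measure_mono_null (fun ω _ => hinf) hn
  rw [measure_univ] at h4
  exact one_ne_zero h4

/-- The bound for a finite moment. -/
lemma pc_bound (r : ℕ) (hr : 3 ≤ r) {α : ℝ} (hα0 : 0 < α) (hα : 1 + α ≤ r) (ξ : PMF ℕ) {m : ℝ}
    (hm : HasSum (fun k : ℕ => (ξ k).toReal * (k : ℝ) ^ (1 + α)) m) :
    ∀ᵐ n ∂ gw ξ, {v | InTree n v}.Infinite →
      1 / 2 * (2 * m) ^ (-(1 / α)) ≤ pc (treeGraph n) r := by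
  rcases lt_or_ge m 1 with hm1 | hm1
  · filter_upwards [ae_finite hα0 ξ hm hm1] with n hn hinf
    exact absurd hinf hn
  have hb1 : 1 / 2 * (2 * m) ^ (-(1 / α)) ≤ 1 := by
    have h1 : (1 : ℝ) / 2 * (2 * m) ^ (-(1 / α)) ≤ 1 / 2 * 1 := by
      apply mul_le_mul_of_nonneg_left _ (by norm_num)
      apply Real.rpow_le_one_of_one_le_of_nonpos (by linarith)
      have : 0 < 1 / α := by positivity
      linarith
    linarith
  have hcount : Set.Countable {p : I | ∃ q : ℚ, (q : ℝ) = p} := by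
    have h1 : {p : I | ∃ q : ℚ, (q : ℝ) = p} ⊆
        (fun p : I => (p : ℝ)) ⁻¹' (Set.range (fun q : ℚ => (q : ℝ))) := by
      rintro p ⟨q, hq⟩
      exact ⟨q, hq⟩
    exact ((Set.countable_range _).preimage_of_injOn Subtype.val_injective.injOn).mono h1
  have h1 : ∀ᵐ n ∂ gw ξ, ∀ p ∈ {p : I | ∃ q : ℚ, (q : ℝ) = p},
      (p : ℝ) < 1 / 2 * (2 * m) ^ (-(1 / α)) → {v | InTree n v}.Infinite →
        perc (treeGraph n) r p = 0 := by
    rw [ae_ball_iff hcount]
    intro p _
    by_cases hp : (p : ℝ) < 1 / 2 * (2 * m) ^ (-(1 / α))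
    · filter_upwards [ae_perc_inf r hr hα0 hα ξ hm p hp] with n hn _
      exact hn
    · exact Filter.Eventually.of_forall fun n hn => absurd hn hp
  filter_upwards [h1] with n hn hinf
  apply le_csInf
  · exact ⟨1, 1, rfl, perc_one _ _⟩
  · rintro x ⟨p, rfl, hp⟩
    by_contra hcon
    push Not at hcon
    obtain ⟨q, hq1, hq2⟩ := exists_rat_btwn hcon
    have hq : (q : ℝ) ∈ Set.Icc (0 : ℝ) 1 :=
      ⟨le_trans p.2.1 hq1.le, hq2.le.trans hb1⟩
    have h2 := hn ⟨q, hq⟩ ⟨q, rfl⟩ hq2 hinf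
    have h3 : perc (treeGraph n) r p ≤ perc (treeGraph n) r ⟨q, hq⟩ :=
      perc_mono _ _ (by exact hq1.le)
    rw [h2] at h3
    exact absurd (lt_of_lt_of_le hp h3) (lt_irrefl _)

/-- The bound with the moment in `[0, ∞]`. -/
theorem moment_bound (r : ℕ) (hr : 3 ≤ r) (α : ℝ) (hα0 : 0 < α) (hα : α ≤ (r : ℝ) - 1)
    (ξ : PMF ℕ) :
    ∀ᵐ n ∂ gw ξ, {v | InTree n v}.Infinite →
      (2 : ℝ≥0∞) ^ (-(1 + 1 / α)) * (∑' k : ℕ, ξ k * (k : ℝ≥0∞) ^ (1 + α)) ^ (-(1 / α)) ≤
        ENNReal.ofReal (pc (treeGraph n) r) := by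
  set M : ℝ≥0∞ := ∑' k : ℕ, ξ k * (k : ℝ≥0∞) ^ (1 + α) with hM
  have hα' : 0 < 1 / α := by positivity
  by_cases htop : M = ⊤
  · refine Filter.Eventually.of_forall fun n _ => ?_
    rw [htop, ENNReal.top_rpow_of_neg (by linarith), mul_zero]
    exact zero_le
  · have hm : HasSum (fun k : ℕ => (ξ k).toReal * (k : ℝ) ^ (1 + α)) M.toReal := by
      have h1 := ENNReal.hasSum_toReal (f := fun k : ℕ => ξ k * (k : ℝ≥0∞) ^ (1 + α)) htop
      have h2 : ∀ k : ℕ, (ξ k * (k : ℝ≥0∞) ^ (1 + α)).toReal =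
          (ξ k).toReal * (k : ℝ) ^ (1 + α) := by
        intro k
        rw [ENNReal.toReal_mul, ← ENNReal.toReal_rpow]
        simp
      have h3 : M.toReal = ∑' k : ℕ, (ξ k * (k : ℝ≥0∞) ^ (1 + α)).toReal := by
        rw [hM, ENNReal.tsum_toReal_eq]
        intro k hk
        exact htop (ENNReal.tsum_eq_top_of_eq_top ⟨k, hk⟩)
      rw [h3]
      simp only [h2] at h1 ⊢
      exact h1
    rcases lt_or_ge M.toReal 1 with hm1 | hm1
    · filter_upwards [ae_finite hα0 ξ hm hm1] with n hn hinf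
      exact absurd hinf hn
    · filter_upwards [pc_bound r hr hα0 (by linarith) ξ hm] with n hn hinf
      have h1 := hn hinf
      have hM0 : 0 < M.toReal := by linarith
      have h2 : (2 : ℝ≥0∞) ^ (-(1 + 1 / α)) * M ^ (-(1 / α)) =
          ENNReal.ofReal (1 / 2 * (2 * M.toReal) ^ (-(1 / α))) := by
        have e1 : (1 : ℝ) / 2 * (2 * M.toReal) ^ (-(1 / α)) =
            2 ^ (-(1 + 1 / α)) * M.toReal ^ (-(1 / α)) := by
          rw [Real.mul_rpow (by norm_num) hM0.le, ← mul_assoc]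
          congr 1
          have : -(1 + 1 / α) = -1 + -(1 / α) := by ring
          rw [this, Real.rpow_add (by norm_num), Real.rpow_neg_one]
          norm_num
        rw [e1, ENNReal.ofReal_mul (by positivity), ← ENNReal.ofReal_rpow_of_pos (by norm_num),
          ← ENNReal.ofReal_rpow_of_pos hM0, ENNReal.ofReal_toReal htop]
        norm_num
      rw [h2]
      exact ENNReal.ofReal_le_ofReal h1

end Pool.Agent.U151.GWB
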