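import Mathlib

set_option autoImplicit false

/-!
# `U`-bootstrap percolation on `ℤ²`: definitions and deterministic lemmas
-/

open MeasureTheory ProbabilityTheory Filter Topology
open scoped ENNReal NNReal

namespace Pool.Agent.U151.UB

/-- The sites of the square lattice. -/
abbrev Site := ℤ × ℤ

/-- An update family: a finite nonempty collection of finite subsets of `ℤ² ∖ {0}`. -/
def IsUpdateFamily (U : Finset (Finset Site)) : Prop :=
  U.Nonempty ∧ ∀ X ∈ U, (0 : Site) ∉ X

/-- One step of the dynamics: `A ∪ {x : x + X ⊆ A for some X ∈ U}`. -/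
def step (U : Finset (Finset Site)) (A : Set Site) : Set Site :=
  A ∪ {x | ∃ X ∈ U, ∀ v ∈ X, x + v ∈ A}

/-- The set `A_t` of the sites infected at time `t`. -/
def infected (U : Finset (Finset Site)) (A : Set Site) (t : ℕ) : Set Site := (step U)^[t] A

/-- The closure `[A] = ⋃ t, A_t`. -/
def clos (U : Finset (Finset Site)) (A : Set Site) : Set Site := ⋃ t : ℕ, infected U A t

/-- The discrete half-plane `ℍ_u = {x ∈ ℤ² : ⟨x, u⟩ < 0}` for the unit vector
`u = (cos θ, sin θ)`. -/
def halfPlane (θ : ℝ) : Set Site := {x | (x.1 : ℝ) * Real.cos θ + (x.2 : ℝ) * Real.sin θ < 0}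

/-- The direction `u = (cos θ, sin θ)` is stable: `[ℍ_u] = ℍ_u`. -/
def Stable (U : Finset (Finset Site)) (θ : ℝ) : Prop := clos U (halfPlane θ) = halfPlane θ

/-- The family is subcritical: the stable set has positive measure in every open semicircle. -/
def Subcritical (U : Finset (Finset Site)) : Prop :=
  ∀ α : ℝ, 0 < volume {θ : ℝ | θ ∈ Set.Ioo α (α + Real.pi) ∧ Stable U θ}

/-- The Bernoulli law on `Bool` giving mass `p` to `true`. -/
noncomputable def coin (p : unitInterval) : Measure Bool :=
  ENNReal.ofReal (p : ℝ) • Measure.dirac true + ENNReal.ofReal (1 - (p : ℝ)) • Measure.dirac false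

instance (p : unitInterval) : IsProbabilityMeasure (coin p) := by
  constructor
  have h0 := p.2.1
  have h1 := p.2.2
  rw [coin]
  simp only [Measure.coe_add, Measure.coe_smul, Pi.add_apply, Pi.smul_apply, measure_univ,
    smul_eq_mul, mul_one]
  rw [← ENNReal.ofReal_add h0 (by linarith)]
  norm_num

/-- The law `ℙ_p`: every site is initially infected (`true`) independently with probability `p`. -/
noncomputable def law (p : unitInterval) : Measure (Site → Bool) :=
  Measure.infinitePi fun _ : Site => coin p

instance (p : unitInterval) : IsProbabilityMeasure (law p) := by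
  unfold law; infer_instance

/-- The set `A` of the initially infected sites. -/
def start (ω : Site → Bool) : Set Site := {x | ω x = true}

/-- The event `[A] = ℤ²` (percolation). -/
def percolation (U : Finset (Finset Site)) : Set (Site → Bool) :=
  {ω | clos U (start ω) = Set.univ}

/-- The critical probability `p_c = inf {p : ℙ_p([A] = ℤ²) = 1}`. -/
noncomputable def pc (U : Finset (Finset Site)) : ℝ :=
  sInf {x : ℝ | ∃ p : unitInterval, (p : ℝ) = x ∧ law p (percolation U) = 1}

/-- The occupation time of the origin, `T = min {t ≥ 0 : 0 ∈ A_t}` (`∞` if there is no such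
`t`). -/
noncomputable def T (U : Finset (Finset Site)) (ω : Site → Bool) : ℝ≥0∞ :=
  ⨅ (t : ℕ) (_ : (0 : Site) ∈ infected U (start ω) t), (t : ℝ≥0∞)

variable {U : Finset (Finset Site)}

lemma infected_zero (A : Set Site) : infected U A 0 = A := rfl

lemma infected_succ (A : Set Site) (t : ℕ) : infected U A (t + 1) = step U (infected U A t) :=
  Function.iterate_succ_apply' _ _ _

lemma step_mono {A B : Set Site} (h : A ⊆ B) : step U A ⊆ step U B := by
  rintro x (hx | ⟨X, hX, hx⟩)
  · exact Or.inl (h hx)
  · exact Or.inr ⟨X, hX, fun v hv => h (hx v hv)⟩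

lemma subset_step (A : Set Site) : A ⊆ step U A := fun _ hx => Or.inl hx

lemma infected_mono_set {A B : Set Site} (h : A ⊆ B) (t : ℕ) :
    infected U A t ⊆ infected U B t := by
  induction t with
  | zero => exact h
  | succ t ih => rw [infected_succ, infected_succ]; exact step_mono ih

lemma infected_mono (A : Set Site) : Monotone (infected U A) := by
  apply monotone_nat_of_le_succ
  intro t
  rw [infected_succ]
  exact subset_step _

lemma mem_infected_succ_of {A : Set Site} {t : ℕ} {x : Site} {X : Finset Site} (hX : X ∈ U)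
    (h : ∀ v ∈ X, x + v ∈ infected U A t) : x ∈ infected U A (t + 1) := by
  rw [infected_succ]
  exact Or.inr ⟨X, hX, h⟩

lemma infected_translate (A : Set Site) (y : Site) (t : ℕ) (x : Site) :
    x + y ∈ infected U A t ↔ x ∈ infected U {z | z + y ∈ A} t := by
  induction t generalizing x with
  | zero => rfl
  | succ t ih =>
    rw [infected_succ, infected_succ]
    constructor
    · rintro (h | ⟨X, hX, h⟩)
      · exact Or.inl ((ih x).1 h)
      · refine Or.inr ⟨X, hX, fun v hv => (ih (x + v)).1 ?_⟩
        have := h v hv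
        rwa [add_right_comm] at this
    · rintro (h | ⟨X, hX, h⟩)
      · exact Or.inl ((ih x).2 h)
      · refine Or.inr ⟨X, hX, fun v hv => ?_⟩
        have := (ih (x + v)).2 (h v hv)
        rwa [add_right_comm] at this

/-- The sup-norm ball. -/
noncomputable def ball (x : Site) (r : ℕ) : Finset Site :=
  Finset.Icc (x.1 - r) (x.1 + r) ×ˢ Finset.Icc (x.2 - r) (x.2 + r)

lemma mem_ball {x z : Site} {r : ℕ} : z ∈ ball x r ↔ |z.1 - x.1| ≤ r ∧ |z.2 - x.2| ≤ r := by
  rw [ball, Finset.mem_product, Finset.mem_Icc, Finset.mem_Icc, abs_le, abs_le]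
  constructor
  · rintro ⟨⟨h1, h2⟩, h3, h4⟩
    exact ⟨⟨by linarith, by linarith⟩, by linarith, by linarith⟩
  · rintro ⟨⟨h1, h2⟩, h3, h4⟩
    exact ⟨⟨by linarith, by linarith⟩, by linarith, by linarith⟩

/-- `B` bounds the coordinates of all the elements of the rules. -/
def Bounds (U : Finset (Finset Site)) (B : ℕ) : Prop :=
  ∀ X ∈ U, ∀ v ∈ X, |v.1| ≤ B ∧ |v.2| ≤ B

lemma infected_local {B : ℕ} (hB : Bounds U B) {A A' : Set Site} (t : ℕ) (x : Site)
    (h : ∀ z ∈ ball x (B * t), z ∈ A ↔ z ∈ A') :
    x ∈ infected U A t ↔ x ∈ infected U A' t := by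
  induction t generalizing x with
  | zero =>
    apply h
    simp [mem_ball]
  | succ t ih =>
    rw [infected_succ, infected_succ]
    have h0 : x ∈ infected U A t ↔ x ∈ infected U A' t := by
      apply ih
      intro z hz
      apply h
      rw [mem_ball] at hz ⊢
      push_cast at hz ⊢
      have : (B : ℤ) * t ≤ B * (t + 1) := by nlinarith [Int.natCast_nonneg B]
      exact ⟨hz.1.trans this, hz.2.trans this⟩
    have h1 : ∀ X ∈ U, ∀ v ∈ X, (x + v ∈ infected U A t ↔ x + v ∈ infected U A' t) := by
      intro X hX v hv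
      apply ih
      intro z hz
      apply h
      obtain ⟨b1, b2⟩ := hB X hX v hv
      rw [mem_ball] at hz ⊢
      push_cast at hz ⊢
      rw [abs_le] at b1 b2
      simp only [Prod.fst_add, Prod.snd_add] at hz
      rw [abs_le, abs_le] at hz
      rw [abs_le, abs_le]
      obtain ⟨⟨h3, h4⟩, h5, h6⟩ := hz
      refine ⟨⟨?_, ?_⟩, ?_, ?_⟩ <;> linarith
    constructor
    · rintro (hx | ⟨X, hX, hx⟩)
      · exact Or.inl (h0.1 hx)
      · exact Or.inr ⟨X, hX, fun v hv => (h1 X hX v hv).1 (hx v hv)⟩
    · rintro (hx | ⟨X, hX, hx⟩)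
      · exact Or.inl (h0.2 hx)
      · exact Or.inr ⟨X, hX, fun v hv => (h1 X hX v hv).2 (hx v hv)⟩

/-- the integer scalar product -/
def dot (x w : Site) : ℤ := x.1 * w.1 + x.2 * w.2

lemma dot_add (x y w : Site) : dot (x + y) w = dot x w + dot y w := by
  simp only [dot, Prod.fst_add, Prod.snd_add]; ring

/-- The strip used in the recursion. -/
noncomputable def strip (w : Site) (B n : ℕ) : Finset Site :=
  (ball 0 (n * B)).filter fun z => (n : ℤ) ≤ dot z w ∧ dot z w < n + B

lemma mem_strip {w z : Site} {B n : ℕ} : z ∈ strip w B n ↔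
    (|z.1| ≤ (n * B : ℕ) ∧ |z.2| ≤ (n * B : ℕ)) ∧ (n : ℤ) ≤ dot z w ∧ dot z w < n + B := by
  rw [strip, Finset.mem_filter, mem_ball]
  simp

/-- If the strip is infected at time `t`, then the origin is infected at time `t + n`. -/
lemma zero_infected {X : Finset Site} (hX : X ∈ U) {w : Site} {B : ℕ} (hB0 : 0 < B)
    (hw : ∀ v ∈ X, 1 ≤ dot v w ∧ dot v w ≤ B) (hB : Bounds U B) {A : Set Site} {t n : ℕ}
    (h : ∀ z ∈ strip w B n, z ∈ infected U A t) :
    (0 : Site) ∈ infected U A (t + n) := by
  have key : ∀ k : ℕ, k ≤ n → ∀ z : Site, (n : ℤ) - k ≤ dot z w → dot z w < n + B →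
      |z.1| ≤ ((n : ℤ) - k) * B → |z.2| ≤ ((n : ℤ) - k) * B → z ∈ infected U A (t + k) := by
    intro k
    induction k with
    | zero =>
      intro _ z h1 h2 h3 h4
      apply h
      rw [mem_strip]
      push_cast
      simp only [Nat.cast_zero, sub_zero] at h1 h3 h4
      exact ⟨⟨h3, h4⟩, h1, h2⟩
    | succ k ih =>
      intro hk z h1 h2 h3 h4
      push_cast at h1 h3 h4
      by_cases hd : (n : ℤ) - k ≤ dot z w
      · have hB0 : (0 : ℤ) ≤ B := Int.natCast_nonneg B
        have := ih (by omega) z hd h2 (h3.trans (by nlinarith)) (h4.trans (by nlinarith))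
        exact infected_mono A (by omega) this
      · have hd' : dot z w = (n : ℤ) - k - 1 := by omega
        refine mem_infected_succ_of hX fun v hv => ?_
        obtain ⟨w1, w2⟩ := hw v hv
        obtain ⟨b1, b2⟩ := hB X hX v hv
        apply ih (by omega)
        · rw [dot_add]; omega
        · rw [dot_add]; omega
        · simp only [Prod.fst_add]
          refine (abs_add_le _ _).trans ?_
          nlinarith
        · simp only [Prod.snd_add]
          refine (abs_add_le _ _).trans ?_
          nlinarith
  have := key n le_rfl 0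
  apply this
  · simp [dot]
  · simp only [dot, Prod.fst_zero, zero_mul, Prod.snd_zero, add_zero]
    positivity
  · simp
  · simp

end Pool.Agent.U151.UB
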