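import Pool.Agent.U151.UBDef

set_option autoImplicit false

/-!
# `U`-bootstrap percolation on `ℤ²`: finite stable sets of families all of whose directions are
stable
-/

open MeasureTheory ProbabilityTheory Filter Topology
open scoped ENNReal NNReal

namespace Pool.Agent.U151.UB

variable {U : Finset (Finset Site)}

/-- Euclidean norm of an integer vector -/
noncomputable def nrm (m : Site) : ℝ := Real.sqrt ((m.1 : ℝ) ^ 2 + (m.2 : ℝ) ^ 2)

lemma nrm_nonneg (m : Site) : 0 ≤ nrm m := Real.sqrt_nonneg _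

lemma nrm_sq (m : Site) : nrm m ^ 2 = (m.1 : ℝ) ^ 2 + (m.2 : ℝ) ^ 2 := by
  unfold nrm
  rw [Real.sq_sqrt (by positivity)]

/-- strict triangle inequality -/
lemma strict_triangle {v m₁ m₂ : Site} (h1 : 0 < dot v m₁) (h2 : dot v m₂ < 0) :
    Real.sqrt ((-(dot v m₂ : ℝ) * m₁.1 + (dot v m₁ : ℝ) * m₂.1) ^ 2 +
      (-(dot v m₂ : ℝ) * m₁.2 + (dot v m₁ : ℝ) * m₂.2) ^ 2) <
      -(dot v m₂ : ℝ) * nrm m₁ + (dot v m₁ : ℝ) * nrm m₂ := by
  set a : ℝ := -(dot v m₂ : ℝ) with ha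
  set b : ℝ := (dot v m₁ : ℝ) with hb
  have ha0 : 0 < a := by
    have : ((dot v m₂ : ℤ) : ℝ) < 0 := by exact_mod_cast h2
    linarith
  have hb0 : 0 < b := by rw [hb]; exact_mod_cast h1
  have n1 := nrm_sq m₁
  have n2 := nrm_sq m₂
  have n1' := nrm_nonneg m₁
  have n2' := nrm_nonneg m₂
  have hd1 : b = (v.1 : ℝ) * m₁.1 + v.2 * m₁.2 := by
    rw [hb]; unfold dot; push_cast; ring
  have hd2 : a = -((v.1 : ℝ) * m₂.1 + v.2 * m₂.2) := by
    rw [ha]; unfold dot; push_cast; ring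
  -- `m₁ ≠ 0`
  have hm1 : 0 < (m₁.1 : ℝ) ^ 2 + (m₁.2 : ℝ) ^ 2 := by
    by_contra hcon
    have e1 : (m₁.1 : ℝ) = 0 := by nlinarith [sq_nonneg (m₁.1 : ℝ), sq_nonneg (m₁.2 : ℝ)]
    have e2 : (m₁.2 : ℝ) = 0 := by nlinarith [sq_nonneg (m₁.1 : ℝ), sq_nonneg (m₁.2 : ℝ)]
    rw [e1, e2] at hd1
    simp at hd1
    linarith
  have hm2 : 0 < (m₂.1 : ℝ) ^ 2 + (m₂.2 : ℝ) ^ 2 := by
    by_contra hcon
    have e1 : (m₂.1 : ℝ) = 0 := by nlinarith [sq_nonneg (m₂.1 : ℝ), sq_nonneg (m₂.2 : ℝ)]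
    have e2 : (m₂.2 : ℝ) = 0 := by nlinarith [sq_nonneg (m₂.1 : ℝ), sq_nonneg (m₂.2 : ℝ)]
    rw [e1, e2] at hd2
    simp at hd2
    linarith
  have hn1 : 0 < nrm m₁ := by
    unfold nrm
    exact Real.sqrt_pos.2 hm1
  have hn2 : 0 < nrm m₂ := by
    unfold nrm
    exact Real.sqrt_pos.2 hm2
  -- strict Cauchy-Schwarz
  have hcs : (m₁.1 : ℝ) * m₂.1 + m₁.2 * m₂.2 < nrm m₁ * nrm m₂ := by
    by_contra hcon
    push Not at hcon
    have hpos : 0 < (m₁.1 : ℝ) * m₂.1 + m₁.2 * m₂.2 := lt_of_lt_of_le (by positivity) hcon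
    have hsq : (nrm m₁ * nrm m₂) ^ 2 ≤ ((m₁.1 : ℝ) * m₂.1 + m₁.2 * m₂.2) ^ 2 :=
      pow_le_pow_left₀ (by positivity) hcon 2
    rw [mul_pow, n1, n2] at hsq
    have hcr : ((m₁.1 : ℝ) * m₂.2 - m₁.2 * m₂.1) ^ 2 ≤ 0 := by nlinarith
    have hcr0 : (m₁.1 : ℝ) * m₂.2 - m₁.2 * m₂.1 = 0 := by
      have := sq_nonneg ((m₁.1 : ℝ) * m₂.2 - m₁.2 * m₂.1)
      exact pow_eq_zero_iff (n := 2) (by norm_num) |>.1 (le_antisymm hcr this)
    have hid : ((m₁.1 : ℝ) ^ 2 + (m₁.2 : ℝ) ^ 2) * a + b * ((m₁.1 : ℝ) * m₂.1 + m₁.2 * m₂.2) =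
        -((m₁.1 : ℝ) * v.2 - m₁.2 * v.1) * ((m₁.1 : ℝ) * m₂.2 - m₁.2 * m₂.1) := by
      rw [hd1, hd2]; ring
    rw [hcr0, mul_zero] at hid
    have : 0 < ((m₁.1 : ℝ) ^ 2 + (m₁.2 : ℝ) ^ 2) * a +
        b * ((m₁.1 : ℝ) * m₂.1 + m₁.2 * m₂.2) := by positivity
    linarith
  rw [Real.sqrt_lt' (by positivity)]
  have e1 : (a * nrm m₁ + b * nrm m₂) ^ 2 = a ^ 2 * ((m₁.1 : ℝ) ^ 2 + (m₁.2 : ℝ) ^ 2) +
      b ^ 2 * ((m₂.1 : ℝ) ^ 2 + (m₂.2 : ℝ) ^ 2) + 2 * a * b * (nrm m₁ * nrm m₂) := by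
    rw [← n1, ← n2]; ring
  rw [e1]
  have : 2 * a * b * ((m₁.1 : ℝ) * m₂.1 + m₁.2 * m₂.2) < 2 * a * b * (nrm m₁ * nrm m₂) :=
    mul_lt_mul_of_pos_left hcs (by positivity)
  nlinarith

/-- the vectors of the rules -/
def vecs (U : Finset (Finset Site)) : Finset Site := U.biUnion id

/-- the normals of the polygon -/
def normals (U : Finset (Finset Site)) : Finset Site :=
  (vecs U).image (fun v => (-v.2, v.1)) ∪ (vecs U).image (fun v => (v.2, -v.1)) ∪
    {(1, 0), (-1, 0), (0, 1), (0, -1)}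

/-- The lattice points of the polygon. -/
noncomputable def poly (U : Finset (Finset Site)) (N : ℕ) : Finset Site := by
  classical
  exact (ball 0 N).filter fun x => ∀ m ∈ normals U, (dot x m : ℝ) ≤ N * nrm m

lemma mem_poly {N : ℕ} {x : Site} :
    x ∈ poly U N ↔ ∀ m ∈ normals U, (dot x m : ℝ) ≤ N * nrm m := by
  classical
  unfold poly
  rw [Finset.mem_filter, mem_ball]
  refine ⟨fun h => h.2, fun h => ⟨?_, h⟩⟩
  have h1 := h (1, 0) (by simp [normals])
  have h2 := h (-1, 0) (by simp [normals])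
  have h3 := h (0, 1) (by simp [normals])
  have h4 := h (0, -1) (by simp [normals])
  simp [dot, nrm] at h1 h2 h3 h4
  simp only [Prod.fst_zero, sub_zero, Prod.snd_zero]
  rw [abs_le, abs_le]
  refine ⟨⟨?_, ?_⟩, ?_, ?_⟩
  · have : -(x.1 : ℝ) ≤ N := h2
    have : (-x.1 : ℤ) ≤ N := by exact_mod_cast this
    linarith
  · exact_mod_cast h1
  · have : -(x.2 : ℝ) ≤ N := h4
    have : (-x.2 : ℤ) ≤ N := by exact_mod_cast this
    linarith
  · exact_mod_cast h3

/-- If no rule is contained in an open half-plane then there is a finite nonempty set `K` which,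
once healthy, remains healthy for ever. -/
lemma exists_stable (h : ∀ X ∈ U, ∀ u : Site, ∃ v ∈ X, 0 ≤ dot v u) :
    ∃ K : Finset Site, K.Nonempty ∧ ∀ x ∈ K, ∀ X ∈ U, ∃ v ∈ X, x + v ∈ K := by
  classical
  -- a bound for the slacks
  obtain ⟨D, hD⟩ : ∃ D : ℝ, ∀ v ∈ vecs U, ∀ m ∈ normals U, (dot v m : ℝ) ≤ D := by
    refine ⟨∑ v ∈ vecs U, ∑ m ∈ normals U, |(dot v m : ℝ)|, fun v hv m hm => ?_⟩
    have h1 : |(dot v m : ℝ)| ≤ ∑ m ∈ normals U, |(dot v m : ℝ)| :=
      Finset.single_le_sum (f := fun m => |(dot v m : ℝ)|) (fun _ _ => abs_nonneg _) hm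
    have h2 : ∑ m ∈ normals U, |(dot v m : ℝ)| ≤
        ∑ v ∈ vecs U, ∑ m ∈ normals U, |(dot v m : ℝ)| :=
      Finset.single_le_sum (f := fun v => ∑ m ∈ normals U, |(dot v m : ℝ)|)
        (fun _ _ => Finset.sum_nonneg fun _ _ => abs_nonneg _) hv
    exact (le_abs_self _).trans (h1.trans h2)
  have hev : ∀ᶠ N : ℕ in atTop, ∀ v ∈ vecs U, ∀ m₁ ∈ normals U, ∀ m₂ ∈ normals U,
      0 < dot v m₁ → dot v m₂ < 0 →
      (-(dot v m₂ : ℝ) + dot v m₁) * D < N * ((-(dot v m₂ : ℝ) * nrm m₁ + (dot v m₁ : ℝ) * nrm m₂) -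
        Real.sqrt ((-(dot v m₂ : ℝ) * m₁.1 + (dot v m₁ : ℝ) * m₂.1) ^ 2 +
          (-(dot v m₂ : ℝ) * m₁.2 + (dot v m₁ : ℝ) * m₂.2) ^ 2)) := by
    rw [Filter.eventually_all_finset]
    intro v _
    rw [Filter.eventually_all_finset]
    intro m₁ _
    rw [Filter.eventually_all_finset]
    intro m₂ _
    by_cases h1 : 0 < dot v m₁
    · by_cases h2 : dot v m₂ < 0
      · have h3 := strict_triangle h1 h2
        have h4 : Tendsto (fun N : ℕ => (N : ℝ) *
            ((-(dot v m₂ : ℝ) * nrm m₁ + (dot v m₁ : ℝ) * nrm m₂) -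
            Real.sqrt ((-(dot v m₂ : ℝ) * m₁.1 + (dot v m₁ : ℝ) * m₂.1) ^ 2 +
            (-(dot v m₂ : ℝ) * m₁.2 + (dot v m₁ : ℝ) * m₂.2) ^ 2))) atTop atTop :=
          tendsto_natCast_atTop_atTop.atTop_mul_const (by linarith)
        filter_upwards [h4.eventually_gt_atTop ((-(dot v m₂ : ℝ) + dot v m₁) * D)] with N hN _ _
        exact hN
      · exact Filter.Eventually.of_forall fun N _ h3 => absurd h3 h2
    · exact Filter.Eventually.of_forall fun N h3 => absurd h3 h1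
  obtain ⟨N, hN⟩ := hev.exists
  refine ⟨poly U N, ⟨0, ?_⟩, ?_⟩
  · rw [mem_poly]
    intro m _
    have := nrm_nonneg m
    simp only [dot, Prod.fst_zero, zero_mul, Prod.snd_zero, add_zero, Int.cast_zero]
    positivity
  · intro x hx X hX
    by_contra hcon
    push Not at hcon
    have hvec : ∀ v ∈ X, v ∈ vecs U := fun v hv => Finset.mem_biUnion.2 ⟨X, hX, hv⟩
    rw [mem_poly] at hx
    have hm : ∀ v ∈ X, ∃ m ∈ normals U, (N : ℝ) * nrm m < dot x m + dot v m := by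
      intro v hv
      have h1 := hcon v hv
      rw [mem_poly] at h1
      push Not at h1
      obtain ⟨m, hm1, hm2⟩ := h1
      rw [dot_add] at hm2
      push_cast at hm2
      exact ⟨m, hm1, hm2⟩
    choose! m hm1 hm2 using hm
    have hpos : ∀ v ∈ X, 0 < dot v (m v) := by
      intro v hv
      have h1 := hm2 v hv
      have h2 := hx (m v) (hm1 v hv)
      have : (0 : ℝ) < dot v (m v) := by linarith
      exact_mod_cast this
    have hnn : ∀ v ∈ X, ∀ v' ∈ X, 0 ≤ dot v (m v') := by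
      intro v hv v' hv'
      by_contra hneg
      push Not at hneg
      have h1 := hN v (hvec v hv) (m v) (hm1 v hv) (m v') (hm1 v' hv') (hpos v hv) hneg
      set a : ℝ := -(dot v (m v') : ℝ) with ha
      set b : ℝ := (dot v (m v) : ℝ) with hb
      have ha0 : 0 < a := by
        have : ((dot v (m v') : ℤ) : ℝ) < 0 := by exact_mod_cast hneg
        linarith
      have hb0 : 0 < b := by rw [hb]; exact_mod_cast hpos v hv
      set u₁ : ℝ := a * (m v).1 + b * (m v').1 with hu1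
      set u₂ : ℝ := a * (m v).2 + b * (m v').2 with hu2
      -- `u ⟂ v`
      have hperp : (v.1 : ℝ) * u₁ + v.2 * u₂ = 0 := by
        rw [hu1, hu2, ha, hb]
        unfold dot
        push_cast
        ring
      have hv0 : 0 < (v.1 : ℝ) ^ 2 + (v.2 : ℝ) ^ 2 := by
        by_contra hc
        have e1 : (v.1 : ℝ) = 0 := by nlinarith [sq_nonneg (v.1 : ℝ), sq_nonneg (v.2 : ℝ)]
        have e2 : (v.2 : ℝ) = 0 := by nlinarith [sq_nonneg (v.1 : ℝ), sq_nonneg (v.2 : ℝ)]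
        have e3 : b = (v.1 : ℝ) * (m v).1 + v.2 * (m v).2 := by
          rw [hb]; unfold dot; push_cast; ring
        rw [e1, e2] at e3
        simp at e3
        linarith
      set S : ℝ := (v.1 : ℝ) ^ 2 + (v.2 : ℝ) ^ 2 with hS
      set l : ℝ := (-u₁ * v.2 + u₂ * v.1) / S with hl
      have hu1' : u₁ = l * (-(v.2 : ℝ)) := by
        rw [hl]
        field_simp
        have : u₁ * S = u₁ * v.2 ^ 2 + (v.1 : ℝ) * (v.1 * u₁) := by rw [hS]; ring
        have h5 : (v.1 : ℝ) * u₁ = -(v.2 * u₂) := by linarith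
        rw [this, h5]; ring
      have hu2' : u₂ = l * (v.1 : ℝ) := by
        rw [hl]
        field_simp
        have : u₂ * S = u₂ * v.1 ^ 2 + (v.2 : ℝ) * (v.2 * u₂) := by rw [hS]; ring
        have h5 : (v.2 : ℝ) * u₂ = -(v.1 * u₁) := by linarith
        rw [this, h5]; ring
      have hmem1 : ((-v.2, v.1) : Site) ∈ normals U := by
        unfold normals
        simp only [Finset.mem_union, Finset.mem_image]
        exact Or.inl (Or.inl ⟨v, hvec v hv, rfl⟩)
      have hmem2 : ((v.2, -v.1) : Site) ∈ normals U := by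
        unfold normals
        simp only [Finset.mem_union, Finset.mem_image]
        exact Or.inl (Or.inr ⟨v, hvec v hv, rfl⟩)
      have hx1 := hx _ hmem1
      have hx2 := hx _ hmem2
      have hnv1 : nrm ((-v.2, v.1) : Site) = Real.sqrt S := by
        unfold nrm
        push_cast
        congr 1
        rw [hS]; ring
      have hnv2 : nrm ((v.2, -v.1) : Site) = Real.sqrt S := by
        unfold nrm
        push_cast
        congr 1
        rw [hS]; ring
      rw [hnv1] at hx1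
      rw [hnv2] at hx2
      unfold dot at hx1 hx2
      push_cast at hx1 hx2
      have hsq : Real.sqrt (u₁ ^ 2 + u₂ ^ 2) = |l| * Real.sqrt S := by
        have : u₁ ^ 2 + u₂ ^ 2 = l ^ 2 * S := by
          rw [hu1', hu2', hS]; ring
        rw [this, Real.sqrt_mul (sq_nonneg _), Real.sqrt_sq_eq_abs]
      have hxu : (x.1 : ℝ) * u₁ + x.2 * u₂ ≤ N * Real.sqrt (u₁ ^ 2 + u₂ ^ 2) := by
        rw [hsq, hu1', hu2']
        rcases le_total 0 l with hl0 | hl0
        · rw [abs_of_nonneg hl0]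
          have := mul_le_mul_of_nonneg_left hx1 hl0
          linarith
        · rw [abs_of_nonpos hl0]
          have := mul_le_mul_of_nonneg_left hx2 (by linarith : 0 ≤ -l)
          linarith
      have hy1 := hm2 v hv
      have hy2 := hm2 v' hv'
      have hd1 := hD v (hvec v hv) (m v) (hm1 v hv)
      have hd2 := hD v' (hvec v' hv') (m v') (hm1 v' hv')
      have hz1 : a * ((N : ℝ) * nrm (m v) - D) ≤ a * dot x (m v) :=
        mul_le_mul_of_nonneg_left (by linarith) ha0.le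
      have hz2 : b * ((N : ℝ) * nrm (m v') - D) ≤ b * dot x (m v') :=
        mul_le_mul_of_nonneg_left (by linarith) hb0.le
      have hsum : a * (dot x (m v) : ℝ) + b * dot x (m v') = (x.1 : ℝ) * u₁ + x.2 * u₂ := by
        rw [hu1, hu2]
        unfold dot
        push_cast
        ring
      nlinarith
    -- the sum of the normals
    have hX0 : X.Nonempty := by
      obtain ⟨v, hv, -⟩ := h X hX 0
      exact ⟨v, hv⟩
    obtain ⟨v, hv, hv'⟩ := h X hX (-∑ v' ∈ X, m v')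
    have hlin : dot v (-∑ v' ∈ X, m v') = -∑ v' ∈ X, dot v (m v') := by
      unfold dot
      simp only [Prod.fst_neg, Prod.snd_neg, Prod.fst_sum, Prod.snd_sum]
      rw [Finset.sum_add_distrib, ← Finset.mul_sum, ← Finset.mul_sum]
      ring
    have hge : dot v (m v) ≤ ∑ v' ∈ X, dot v (m v') :=
      Finset.single_le_sum (f := fun v' => dot v (m v')) (fun v' hv'' => hnn v hv v' hv'') hv
    have := hpos v hv
    rw [hlin] at hv'
    linarith

end Pool.Agent.U151.UB
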