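import Pool.Agent.U151.UBProb
import Pool.Agent.U151.UBStab

set_option autoImplicit false

/-!
# `U`-bootstrap percolation on `ℤ²`: the critical probability and the mean occupation time
-/

open MeasureTheory ProbabilityTheory Filter Topology
open scoped ENNReal NNReal

namespace Pool.Agent.U151.UB

variable {U : Finset (Finset Site)}

/-! ### Continuity in `p` -/

lemma coin_true (p : unitInterval) : (coin p).real {true} = p := by
  rw [measureReal_def, coin]
  simp [p.2.1]

lemma coin_false (p : unitInterval) : (coin p).real {false} = 1 - p := by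
  rw [measureReal_def, coin]
  simp [p.2.2]

lemma continuous_coin (b : Bool) : Continuous fun p : unitInterval => (coin p).real {b} := by
  cases b
  · simp only [coin_false]; fun_prop
  · simp only [coin_true]; fun_prop

lemma continuous_local {F : Finset Site} {E : Set (Site → Bool)}
    (h : ∀ ω ω' : Site → Bool, (∀ x ∈ F, ω x = ω' x) → ω ∈ E → ω' ∈ E) :
    Continuous fun p : unitInterval => (law p).real E := by
  classical
  set E' : Set (F → Bool) := F.restrict '' E with hE'
  have hE := local_event h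
  have h1 : ∀ p : unitInterval, (law p).real E =
      ∑ η ∈ E'.toFinset, ∏ i : F, (coin p).real {η i} := by
    intro p
    rw [hE, measureReal_def, ← Measure.map_apply (measurable_restrict' F)
      (Set.toFinite _).measurableSet]
    unfold law
    rw [Measure.infinitePi_map_restrict, ← measureReal_def]
    have h2 : (F.restrict '' E : Set (F → Bool)) = (E'.toFinset : Set (F → Bool)) := by
      rw [Set.coe_toFinset]
    rw [h2, ← sum_measureReal_singleton]
    apply Finset.sum_congr rfl
    intro η _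
    rw [measureReal_def, Measure.pi_singleton, ENNReal.toReal_prod]
    rfl
  simp only [h1]
  apply continuous_finsetSum
  intro η _
  apply continuous_finsetProd
  intro i _
  exact continuous_coin _

lemma continuous_tau (t : ℕ) : Continuous fun p : unitInterval => tau U p t := by
  obtain ⟨B, hB⟩ := exists_bounds U
  exact continuous_local (event_local_not hB t 0)

lemma tau_zero (p : unitInterval) : tau U p 0 = 1 - p := by
  unfold tau law
  have h1 : {ω : Site → Bool | (0 : Site) ∉ infected U (start ω) 0} =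
      (fun ω : Site → Bool => ω 0) ⁻¹' {false} := by
    ext ω
    simp [infected_zero, start]
  rw [h1, measureReal_def, ← Measure.map_apply (measurable_pi_apply _) (measurableSet_singleton _),
    Measure.infinitePi_map_eval, ← measureReal_def, coin_false]

/-! ### The critical probability -/

lemma one_mem : (1 : ℝ) ∈ {x : ℝ | ∃ p : unitInterval, (p : ℝ) = x ∧ law p (percolation U) = 1} := by
  refine ⟨1, rfl, percolation_of_tendsto 1 ?_⟩
  have h : ∀ t, tau U 1 t = 0 := by
    intro t
    apply le_antisymm _ (tau_nonneg _ _)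
    refine (tau_anti 1 (Nat.zero_le t)).trans ?_
    rw [tau_zero]
    simp
  have : tau U 1 = fun _ => 0 := funext h
  rw [this]
  exact tendsto_const_nhds

lemma bdd : BddBelow {x : ℝ | ∃ p : unitInterval, (p : ℝ) = x ∧ law p (percolation U) = 1} :=
  ⟨0, by rintro x ⟨p, rfl, -⟩; exact p.2.1⟩

lemma pc_le {p : unitInterval} (h : law p (percolation U) = 1) : pc U ≤ p :=
  csInf_le bdd ⟨p, rfl, h⟩

lemma pc_mem (U : Finset (Finset Site)) : pc U ∈ Set.Icc (0 : ℝ) 1 := by
  constructor
  · apply le_csInf ⟨1, one_mem⟩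
    rintro x ⟨p, rfl, -⟩
    exact p.2.1
  · exact csInf_le bdd one_mem

/-- The critical probability as a point of `[0, 1]`. -/
noncomputable def critical (U : Finset (Finset Site)) : unitInterval := ⟨pc U, pc_mem U⟩

lemma critical_coe : ((critical U : unitInterval) : ℝ) = pc U := rfl

/-! ### Unstable directions -/

lemma infected_halfPlane {θ : ℝ}
    (h : ∀ X ∈ U, ∃ v ∈ X, 0 ≤ (v.1 : ℝ) * Real.cos θ + (v.2 : ℝ) * Real.sin θ) (t : ℕ) :
    infected U (halfPlane θ) t = halfPlane θ := by
  induction t with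
  | zero => rfl
  | succ t ih =>
    rw [infected_succ, ih]
    apply Set.Subset.antisymm _ (subset_step _)
    rintro x (hx | ⟨X, hX, hx⟩)
    · exact hx
    · obtain ⟨v, hv, hv'⟩ := h X hX
      have := hx v hv
      simp only [halfPlane, Set.mem_ofPred_eq, Prod.fst_add, Prod.snd_add] at this ⊢
      push_cast at this
      linarith

lemma stable_iff {θ : ℝ} : Stable U θ ↔
    ∀ X ∈ U, ∃ v ∈ X, 0 ≤ (v.1 : ℝ) * Real.cos θ + (v.2 : ℝ) * Real.sin θ := by
  constructor
  · intro h X hX
    by_contra hcon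
    push Not at hcon
    have h1 : (0 : Site) ∈ clos U (halfPlane θ) := by
      rw [mem_clos]
      refine ⟨1, ?_⟩
      apply mem_infected_succ_of hX
      intro v hv
      rw [zero_add, infected_zero]
      exact hcon v hv
    rw [h] at h1
    simp [halfPlane] at h1
  · intro h
    unfold Stable clos
    simp only [infected_halfPlane h]
    exact Set.iUnion_const _

lemma exists_good_of_unstable {θ : ℝ} (h : ¬ Stable U θ) :
    ∃ X w B, Good U X w B := by
  rw [stable_iff] at h
  push Not at h
  obtain ⟨X, hX, hv⟩ := h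
  obtain ⟨B₀, hB₀⟩ := exists_bounds U
  have hw : ∃ w : Site, w ≠ 0 ∧ ∀ v ∈ X, 1 ≤ dot v w := by
    rcases X.eq_empty_or_nonempty with hXe | ⟨v₀, hv₀⟩
    · exact ⟨(1, 0), by simp, by rw [hXe]; simp⟩
    · have hev : ∀ᶠ N : ℕ in atTop, ∀ v ∈ X,
          (|v.1| : ℝ) + |(v.2 : ℝ)| < N * (-((v.1 : ℝ) * Real.cos θ + (v.2 : ℝ) * Real.sin θ)) := by
        rw [Filter.eventually_all_finset]
        intro v hv1
        have h1 : Tendsto (fun N : ℕ => (N : ℝ) *
            (-((v.1 : ℝ) * Real.cos θ + (v.2 : ℝ) * Real.sin θ))) atTop atTop :=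
          tendsto_natCast_atTop_atTop.atTop_mul_const (by linarith [hv v hv1])
        exact h1.eventually_gt_atTop _
      obtain ⟨N, hN⟩ := hev.exists
      have hdot : ∀ v ∈ X, 1 ≤ dot v (⌊-(N : ℝ) * Real.cos θ⌋, ⌊-(N : ℝ) * Real.sin θ⌋) := by
        intro v hv1
        have h1 := hN v hv1
        have a1 := Int.floor_le (-(N : ℝ) * Real.cos θ)
        have a2 := Int.lt_floor_add_one (-(N : ℝ) * Real.cos θ)
        have a3 := Int.floor_le (-(N : ℝ) * Real.sin θ)
        have a4 := Int.lt_floor_add_one (-(N : ℝ) * Real.sin θ)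
        set c : ℝ := ((⌊-(N : ℝ) * Real.cos θ⌋ : ℤ) : ℝ) with hc
        set s : ℝ := ((⌊-(N : ℝ) * Real.sin θ⌋ : ℤ) : ℝ) with hs
        have b1 : |(v.1 : ℝ) * (c - (-(N : ℝ) * Real.cos θ))| ≤ |(v.1 : ℝ)| := by
          rw [abs_mul]
          have : |c - (-(N : ℝ) * Real.cos θ)| ≤ 1 := by
            rw [abs_le]; constructor <;> linarith
          calc |(v.1 : ℝ)| * |c - (-(N : ℝ) * Real.cos θ)| ≤ |(v.1 : ℝ)| * 1 :=
                mul_le_mul_of_nonneg_left this (abs_nonneg _)
            _ = |(v.1 : ℝ)| := mul_one _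
        have b2 : |(v.2 : ℝ) * (s - (-(N : ℝ) * Real.sin θ))| ≤ |(v.2 : ℝ)| := by
          rw [abs_mul]
          have : |s - (-(N : ℝ) * Real.sin θ)| ≤ 1 := by
            rw [abs_le]; constructor <;> linarith
          calc |(v.2 : ℝ)| * |s - (-(N : ℝ) * Real.sin θ)| ≤ |(v.2 : ℝ)| * 1 :=
                mul_le_mul_of_nonneg_left this (abs_nonneg _)
            _ = |(v.2 : ℝ)| := mul_one _
        have b3 := (abs_le.1 b1).1
        have b4 := (abs_le.1 b2).1
        have h2 : (0 : ℝ) < (v.1 : ℝ) * c + v.2 * s := by nlinarith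
        have h3 : (0 : ℤ) < dot v (⌊-(N : ℝ) * Real.cos θ⌋, ⌊-(N : ℝ) * Real.sin θ⌋) := by
          unfold dot
          rw [hc, hs] at h2
          exact_mod_cast h2
        linarith
      refine ⟨_, ?_, hdot⟩
      intro hw0
      have := hdot v₀ hv₀
      rw [hw0] at this
      simp [dot] at this
  obtain ⟨w, hw0, hw1⟩ := hw
  set S : ℕ := ∑ v ∈ X, (dot v w).natAbs with hS
  refine ⟨X, w, B₀ + (w.1.natAbs + w.2.natAbs) + S + 1, hX, by omega, ?_, hw0, ?_, ?_⟩
  · intro v hv1
    refine ⟨hw1 v hv1, ?_⟩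
    have h1 : (dot v w).natAbs ≤ S :=
      Finset.single_le_sum (f := fun v => (dot v w).natAbs) (fun _ _ => Nat.zero_le _) hv1
    have h2 : dot v w ≤ ((dot v w).natAbs : ℤ) := Int.le_natAbs
    have h3 : ((dot v w).natAbs : ℤ) ≤ S := by exact_mod_cast h1
    push_cast
    linarith [Int.natCast_nonneg B₀, Int.natCast_nonneg w.1.natAbs, Int.natCast_nonneg w.2.natAbs,
      abs_nonneg w.1, abs_nonneg w.2]
  · rw [Int.abs_eq_natAbs, Int.abs_eq_natAbs]
    push_cast
    have := Int.natCast_nonneg B₀
    have := Int.natCast_nonneg S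
    linarith
  · exact hB₀.mono (by omega)

lemma exists_angle (u : Site) (hu : u ≠ 0) : ∃ (θ r : ℝ), 0 < r ∧ (u.1 : ℝ) = r * Real.cos θ ∧
    (u.2 : ℝ) = r * Real.sin θ := by
  set z : ℂ := ⟨u.1, u.2⟩ with hz
  have hz0 : z ≠ 0 := by
    intro h
    apply hu
    have h1 : ((u.1 : ℤ) : ℝ) = 0 := congrArg Complex.re h
    have h2 : ((u.2 : ℤ) : ℝ) = 0 := congrArg Complex.im h
    exact Prod.ext (by exact_mod_cast h1) (by exact_mod_cast h2)
  refine ⟨Complex.arg z, ‖z‖, norm_pos_iff.2 hz0, ?_, ?_⟩
  · exact (Complex.norm_mul_cos_arg z).symm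
  · exact (Complex.norm_mul_sin_arg z).symm

lemma all_dot_of_stable (h : ∀ θ, Stable U θ) : ∀ X ∈ U, ∀ u : Site, ∃ v ∈ X, 0 ≤ dot v u := by
  intro X hX u
  by_cases hu : u = 0
  · obtain ⟨v, hv, -⟩ := (stable_iff.1 (h 0)) X hX
    exact ⟨v, hv, by rw [hu]; simp [dot]⟩
  · obtain ⟨θ, r, hr, h1, h2⟩ := exists_angle u hu
    obtain ⟨v, hv, hv'⟩ := (stable_iff.1 (h θ)) X hX
    refine ⟨v, hv, ?_⟩
    have h3 : (0 : ℝ) ≤ (dot v u : ℤ) := by
      unfold dot
      push_cast
      rw [h1, h2]
      nlinarith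
    exact_mod_cast h3

/-! ### The two cases -/

/-- A finite set that remains healthy: no percolation for `p < 1`. -/
lemma not_percolation_of_stable {K : Finset Site} (hK : K.Nonempty)
    (h : ∀ x ∈ K, ∀ X ∈ U, ∃ v ∈ X, x + v ∈ K) {p : unitInterval} (hp : (p : ℝ) < 1) :
    law p (percolation U) ≠ 1 := by
  have h1 : ∀ ω : Site → Bool, (∀ x ∈ K, ω x = false) → ∀ t, ∀ x ∈ K,
      x ∉ infected U (start ω) t := by
    intro ω hω t
    induction t with
    | zero =>
      intro x hx hc
      have : ω x = true := hc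
      rw [hω x hx] at this
      exact absurd this (by simp)
    | succ t ih =>
      intro x hx hc
      rw [infected_succ] at hc
      rcases hc with hc | ⟨X, hX, hc⟩
      · exact ih x hx hc
      · obtain ⟨v, hv, hv'⟩ := h x hx X hX
        exact ih _ hv' (hc v hv)
  have h2 : law p (Set.pi (K : Set Site) fun _ => {false}) ≠ 0 := by
    unfold law
    rw [Measure.infinitePi_pi _ (fun _ _ => measurableSet_singleton _), Finset.prod_const]
    apply pow_ne_zero
    intro hc
    have h3 := coin_false p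
    rw [measureReal_def, hc] at h3
    simp at h3
    linarith
  have h3 : Set.pi (K : Set Site) (fun _ => {false}) ⊆ (percolation U)ᶜ := by
    intro ω hω hc
    obtain ⟨x, hx⟩ := hK
    have h4 : x ∈ clos U (start ω) := by
      have : clos U (start ω) = Set.univ := hc
      rw [this]; trivial
    rw [mem_clos] at h4
    obtain ⟨t, ht⟩ := h4
    exact h1 ω (fun y hy => hω y hy) t x hx ht
  intro hc
  rw [← prob_compl_eq_zero_iff measurable_percolation] at hc
  exact h2 (measure_mono_null h3 hc)

lemma pc_eq_one_of_stable (h : ∀ θ, Stable U θ) : pc U = 1 := by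
  obtain ⟨K, hK, hK'⟩ := exists_stable (all_dot_of_stable h)
  apply le_antisymm (pc_mem U).2
  apply le_csInf ⟨1, one_mem⟩
  rintro x ⟨p, rfl, hp⟩
  by_contra hcon
  push Not at hcon
  exact not_percolation_of_stable hK hK' hcon hp

variable {X : Finset Site} {w : Site} {B : ℕ}

lemma Good.pc_lt_one (h : Good U X w B) : pc U < 1 := by
  have hB := h.pos
  set K : ℝ := 28 * (B : ℝ) ^ 6 with hK
  have hK1 : 28 ≤ K := by
    have e2 : (1 : ℝ) ≤ (B : ℝ) ^ 6 := one_le_pow₀ (by exact_mod_cast hB)
    rw [hK]; linarith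
  have hmem : (1 - 1 / (2 * K)) ∈ Set.Icc (0 : ℝ) 1 := by
    have : 1 / (2 * K) ≤ 1 := by
      rw [div_le_one (by linarith)]; linarith
    have h2 : 0 ≤ 1 / (2 * K) := by positivity
    constructor <;> linarith
  set p : unitInterval := ⟨1 - 1 / (2 * K), hmem⟩ with hp
  have h1 : aa U B p 1 < 1 := by
    unfold aa
    have h2 : tau U p 1 ≤ 1 / (2 * K) := by
      refine (tau_anti p (Nat.zero_le 1)).trans ?_
      rw [tau_zero, hp]
      simp
    rw [← hK]
    push_cast
    have h3 : K * 1 * tau U p 1 ≤ K * 1 * (1 / (2 * K)) :=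
      mul_le_mul_of_nonneg_left h2 (by linarith)
    have h4 : K * 1 * (1 / (2 * K)) = 1 / 2 := by field_simp
    linarith
  have h2 := percolation_of_tendsto p (h.tau_tendsto p le_rfl h1)
  have h3 := pc_le h2
  have h4 : (p : ℝ) < 1 := by
    rw [hp]
    have : 0 < 1 / (2 * K) := by positivity
    show 1 - 1 / (2 * K) < 1
    linarith
  linarith

lemma Good.one_le_aa (h : Good U X w B) (hpc : 0 < pc U) {t : ℕ} (ht : 1 ≤ t) :
    1 ≤ aa U B (critical U) t := by
  by_contra hcon
  push Not at hcon
  have hcont : Continuous fun p : unitInterval => aa U B p t := by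
    unfold aa
    exact continuous_const.mul (continuous_tau t)
  have hev : ∀ᶠ p in 𝓝 (critical U), aa U B p t < 1 :=
    (hcont.tendsto _).eventually (gt_mem_nhds hcon)
  -- points below the critical point
  have hseq : Tendsto (fun n : ℕ => (⟨pc U * (1 - 1 / ((n : ℝ) + 1)), by
      have h1 := (pc_mem U).1
      have h2 := (pc_mem U).2
      have h3 : 1 / ((n : ℝ) + 1) ≤ 1 := by
        rw [div_le_one (by positivity)]
        have : (0 : ℝ) ≤ n := Nat.cast_nonneg n
        linarith
      have h4 : 0 ≤ 1 / ((n : ℝ) + 1) := by positivity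
      constructor
      · exact mul_nonneg h1 (by linarith)
      · nlinarith⟩ : unitInterval)) atTop (𝓝 (critical U)) := by
    rw [tendsto_subtype_rng]
    show Tendsto (fun n : ℕ => pc U * (1 - 1 / ((n : ℝ) + 1))) atTop (𝓝 (pc U))
    have h1 : Tendsto (fun n : ℕ => 1 / ((n : ℝ) + 1)) atTop (𝓝 0) :=
      tendsto_one_div_add_atTop_nhds_zero_nat
    have h2 := (tendsto_const_nhds (x := pc U)).mul ((tendsto_const_nhds (x := (1 : ℝ))).sub h1)
    simpa using h2
  obtain ⟨n, hn⟩ := (hseq.eventually hev).exists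
  have h2 := pc_le (percolation_of_tendsto _ (h.tau_tendsto _ ht hn))
  have h3 : 0 < 1 / ((n : ℝ) + 1) := by positivity
  change pc U ≤ pc U * (1 - 1 / ((n : ℝ) + 1)) at h2
  nlinarith

lemma Good.tau_lower (h : Good U X w B) (hpc : 0 < pc U) {t : ℕ} (ht : 1 ≤ t) :
    1 / (28 * (B : ℝ) ^ 6) / t ≤ tau U (critical U) t := by
  have h1 := h.one_le_aa hpc ht
  unfold aa at h1
  have hB : (0 : ℝ) < B := by exact_mod_cast h.pos
  have ht' : (0 : ℝ) < t := by exact_mod_cast ht
  rw [div_div, div_le_iff₀ (by positivity)]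
  linarith

/-! ### The occupation time -/

lemma lt_T_iff {ω : Site → Bool} {n : ℕ} :
    (n : ℝ≥0∞) < T U ω ↔ (0 : Site) ∉ infected U (start ω) n := by
  constructor
  · intro h hc
    have : T U ω ≤ n := iInf₂_le n hc
    exact absurd h (not_lt.2 this)
  · intro h
    have : ((n + 1 : ℕ) : ℝ≥0∞) ≤ T U ω := by
      apply le_iInf₂
      intro t ht
      have : n < t := by
        by_contra hcon
        push Not at hcon
        exact h (infected_mono _ hcon ht)
      exact_mod_cast this
    refine lt_of_lt_of_le ?_ this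
    exact_mod_cast Nat.lt_succ_self n

lemma tsum_le_T (ω : Site → Bool) :
    ∑' n : ℕ, Set.indicator {ω : Site → Bool | (0 : Site) ∉ infected U (start ω) n}
      (fun _ => (1 : ℝ≥0∞)) ω ≤ T U ω := by
  apply le_iInf₂
  intro t ht
  have h1 : ∀ n ∉ Finset.range t,
      Set.indicator {ω : Site → Bool | (0 : Site) ∉ infected U (start ω) n}
        (fun _ => (1 : ℝ≥0∞)) ω = 0 := by
    intro n hn
    rw [Finset.mem_range, not_lt] at hn
    rw [Set.indicator_of_notMem]
    intro hc
    exact hc (infected_mono _ hn ht)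
  rw [tsum_eq_sum h1]
  calc ∑ n ∈ Finset.range t, Set.indicator {ω : Site → Bool | (0 : Site) ∉ infected U (start ω) n}
        (fun _ => (1 : ℝ≥0∞)) ω ≤ ∑ n ∈ Finset.range t, 1 := by
        apply Finset.sum_le_sum
        intro n _
        by_cases hm : ω ∈ {ω : Site → Bool | (0 : Site) ∉ infected U (start ω) n}
        · rw [Set.indicator_of_mem hm]
        · rw [Set.indicator_of_notMem hm]; exact zero_le_one
    _ = t := by simp

lemma lintegral_T_ge (p : unitInterval) :
    ∑' n : ℕ, law p {ω | (0 : Site) ∉ infected U (start ω) n} ≤ ∫⁻ ω, T U ω ∂(law p) := by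
  calc ∑' n : ℕ, law p {ω | (0 : Site) ∉ infected U (start ω) n}
      = ∑' n : ℕ, ∫⁻ ω, Set.indicator {ω : Site → Bool | (0 : Site) ∉ infected U (start ω) n}
        (fun _ => (1 : ℝ≥0∞)) ω ∂(law p) := by
        congr 1
        ext n
        rw [lintegral_indicator_const (measurable_not_infected n 0), one_mul]
    _ = ∫⁻ ω, ∑' n : ℕ, Set.indicator {ω : Site → Bool | (0 : Site) ∉ infected U (start ω) n}
        (fun _ => (1 : ℝ≥0∞)) ω ∂(law p) := by
        rw [lintegral_tsum]
        intro n
        exact (measurable_const.indicator (measurable_not_infected n 0)).aemeasurable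
    _ ≤ _ := lintegral_mono fun ω => tsum_le_T ω

lemma lintegral_T_top {p : unitInterval} {c : ℝ} (hc : 0 < c)
    (h : ∀ n : ℕ, 1 ≤ n → c / n ≤ tau U p n) : ∫⁻ ω, T U ω ∂(law p) = ∞ := by
  by_contra hcon
  have h1 : ∑' n : ℕ, law p {ω | (0 : Site) ∉ infected U (start ω) n} ≠ ∞ :=
    ne_top_of_le_ne_top hcon (lintegral_T_ge p)
  have h2 := ENNReal.summable_toReal h1
  have h3 : Summable fun n : ℕ => c / (n : ℝ) := by
    refine Summable.of_nonneg_of_le (fun n => by positivity) (fun n => ?_) h2
    rcases Nat.eq_zero_or_pos n with hn | hn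
    · rw [hn]
      simp
    · exact h n hn
  have h4 : Summable fun n : ℕ => 1 / (n : ℝ) := by
    have := h3.mul_left (1 / c)
    refine this.congr fun n => ?_
    field_simp
  exact Real.not_summable_one_div_natCast h4

lemma lintegral_T_one : ∫⁻ ω, T U ω ∂(law 1) = 0 := by
  have h1 : ∀ᵐ ω ∂(law 1), T U ω = 0 := by
    have h2 : tau U 1 0 = 0 := by rw [tau_zero]; simp
    unfold tau at h2
    rw [measureReal_def, ENNReal.toReal_eq_zero_iff] at h2
    have h3 := h2.resolve_right (measure_ne_top _ _)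
    have h4 : ∀ᵐ ω ∂(law 1), (0 : Site) ∈ infected U (start ω) 0 := by
      rw [ae_iff]
      exact h3
    filter_upwards [h4] with ω hω
    have : T U ω ≤ ((0 : ℕ) : ℝ≥0∞) := iInf₂_le (f := fun (t : ℕ)
      (_ : (0 : Site) ∈ infected U (start ω) t) => (t : ℝ≥0∞)) 0 hω
    simpa using this
  rw [lintegral_congr_ae h1]
  simp

/-! ### Positivity of `p_c` -/

lemma pc_pos (hsub : Subcritical U) (hperc : law (critical U) (percolation U) = 1) :
    0 < pc U := by
  by_contra hcon
  have hpc : pc U = 0 := le_antisymm (not_lt.1 hcon) (pc_mem U).1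
  have hcrit : critical U = 0 := Subtype.ext hpc
  rw [hcrit] at hperc
  -- almost surely `A = ∅`
  have h1 : ∀ᵐ ω ∂(law 0), ∀ x : Site, ω x = false := by
    rw [ae_all_iff]
    intro x
    rw [ae_iff]
    have h2 : {ω : Site → Bool | ¬ ω x = false} = (fun ω : Site → Bool => ω x) ⁻¹' {true} := by
      ext ω; simp
    rw [h2]
    unfold law
    rw [← Measure.map_apply (measurable_pi_apply _) (measurableSet_singleton _),
      Measure.infinitePi_map_eval]
    have h3 : ((coin 0) {true}).toReal = 0 := by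
      have := coin_true 0
      rw [measureReal_def] at this
      simpa using this
    rw [ENNReal.toReal_eq_zero_iff] at h3
    exact h3.resolve_right (measure_ne_top _ _)
  have h2 : ∀ᵐ ω ∂(law 0), ω ∈ percolation U := by
    rw [ae_iff]
    exact (prob_compl_eq_zero_iff measurable_percolation).2 hperc
  obtain ⟨ω, hω1, hω2⟩ := (h1.and h2).exists
  have h3 : start ω = ∅ := by
    ext x
    simp [start, hω1 x]
  have h4 : clos U ∅ = Set.univ := by
    have : clos U (start ω) = Set.univ := hω2
    rwa [h3] at this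
  by_cases hemp : (∅ : Finset Site) ∈ U
  · -- then no direction is stable
    have h5 : ∀ θ, ¬ Stable U θ := by
      intro θ hθ
      obtain ⟨v, hv, -⟩ := stable_iff.1 hθ ∅ hemp
      simp at hv
    have h6 := hsub 0
    have h7 : {θ : ℝ | θ ∈ Set.Ioo 0 (0 + Real.pi) ∧ Stable U θ} = ∅ := by
      ext θ
      simp [h5 θ]
    rw [h7] at h6
    simp at h6
  · have h5 : ∀ t, infected U ∅ t = ∅ := by
      intro t
      induction t with
      | zero => rfl
      | succ t ih =>
        rw [infected_succ, ih]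
        ext x
        simp only [step, Set.empty_union, Set.mem_ofPred_eq, Set.mem_empty_iff_false, iff_false]
        rintro ⟨X, hX, hx⟩
        rcases X.eq_empty_or_nonempty with he | ⟨v, hv⟩
        · exact hemp (he ▸ hX)
        · exact hx v hv
    have h6 : clos U ∅ = ∅ := by
      unfold clos
      simp [h5]
    rw [h6] at h4
    exact Set.empty_ne_univ h4

end Pool.Agent.U151.UB
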