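import Pool.Agent.U151.UBDef

set_option autoImplicit false

/-!
# `U`-bootstrap percolation on `ℤ²`: the finite-size criterion
-/

open MeasureTheory ProbabilityTheory Filter Topology
open scoped ENNReal NNReal

namespace Pool.Agent.U151.UB

variable {U : Finset (Finset Site)}

/-- `ℙ_p(0 ∉ A_t)`. -/
noncomputable def tau (U : Finset (Finset Site)) (p : unitInterval) (t : ℕ) : ℝ :=
  (law p).real {ω | (0 : Site) ∉ infected U (start ω) t}

lemma local_event {F : Finset Site} {E : Set (Site → Bool)}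
    (h : ∀ ω ω' : Site → Bool, (∀ x ∈ F, ω x = ω' x) → ω ∈ E → ω' ∈ E) :
    E = F.restrict ⁻¹' (F.restrict '' E) := by
  apply Set.Subset.antisymm (Set.subset_preimage_image _ _)
  rintro ω ⟨ω', hω', he⟩
  refine h ω' ω (fun x hx => ?_) hω'
  exact congrFun he ⟨x, hx⟩

lemma measurable_restrict' (F : Finset Site) :
    Measurable (F.restrict : (Site → Bool) → (F → Bool)) := by
  fun_prop

lemma measurableSet_local {F : Finset Site} {E : Set (Site → Bool)}
    (h : ∀ ω ω' : Site → Bool, (∀ x ∈ F, ω x = ω' x) → ω ∈ E → ω' ∈ E) : MeasurableSet E := by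
  rw [local_event h]
  exact measurable_restrict' F (Set.toFinite _).measurableSet

lemma event_local {B : ℕ} (hB : Bounds U B) (t : ℕ) (x : Site) (ω ω' : Site → Bool)
    (h : ∀ z ∈ ball x (B * t), ω z = ω' z) :
    x ∈ infected U (start ω) t ↔ x ∈ infected U (start ω') t := by
  apply infected_local hB
  intro z hz
  simp only [start, Set.mem_ofPred_eq]
  rw [h z hz]

lemma event_local_not {B : ℕ} (hB : Bounds U B) (t : ℕ) (x : Site) :
    ∀ ω ω' : Site → Bool, (∀ z ∈ ball x (B * t), ω z = ω' z) →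
      ω ∈ {ω | x ∉ infected U (start ω) t} → ω' ∈ {ω | x ∉ infected U (start ω) t} := by
  intro ω ω' h h1 h2
  exact h1 ((event_local hB t x ω ω' h).2 h2)

lemma exists_bounds (U : Finset (Finset Site)) : ∃ B : ℕ, Bounds U B := by
  refine ⟨∑ X ∈ U, ∑ v ∈ X, (v.1.natAbs + v.2.natAbs), fun X hX v hv => ?_⟩
  have h1 : v.1.natAbs + v.2.natAbs ≤ ∑ v ∈ X, (v.1.natAbs + v.2.natAbs) :=
    Finset.single_le_sum (f := fun v : Site => v.1.natAbs + v.2.natAbs)
      (fun _ _ => Nat.zero_le _) hv
  have h2 : ∑ v ∈ X, (v.1.natAbs + v.2.natAbs) ≤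
      ∑ X ∈ U, ∑ v ∈ X, (v.1.natAbs + v.2.natAbs) :=
    Finset.single_le_sum (f := fun X : Finset Site => ∑ v ∈ X, (v.1.natAbs + v.2.natAbs))
      (fun _ _ => Nat.zero_le _) hX
  constructor
  · rw [Int.abs_eq_natAbs]
    exact_mod_cast (Nat.le_add_right _ _).trans (h1.trans h2)
  · rw [Int.abs_eq_natAbs]
    exact_mod_cast (Nat.le_add_left _ _).trans (h1.trans h2)

lemma Bounds.mono {B B' : ℕ} (h : Bounds U B) (hB : B ≤ B') : Bounds U B' := by
  intro X hX v hv
  have h1 := h X hX v hv
  have h2 : (B : ℤ) ≤ B' := by exact_mod_cast hB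
  exact ⟨h1.1.trans h2, h1.2.trans h2⟩

lemma measurable_infected (t : ℕ) (x : Site) :
    MeasurableSet {ω : Site → Bool | x ∈ infected U (start ω) t} := by
  obtain ⟨B, hB⟩ := exists_bounds U
  have h := measurableSet_local (event_local_not hB t x)
  have : {ω : Site → Bool | x ∈ infected U (start ω) t} =
      {ω : Site → Bool | x ∉ infected U (start ω) t}ᶜ := by
    ext ω; simp
  rw [this]
  exact h.compl

lemma measurable_not_infected (t : ℕ) (x : Site) :
    MeasurableSet {ω : Site → Bool | x ∉ infected U (start ω) t} := by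
  obtain ⟨B, hB⟩ := exists_bounds U
  exact measurableSet_local (event_local_not hB t x)

lemma law_shift (p : unitInterval) (y : Site) :
    (law p).map (fun (ω : Site → Bool) z => ω (z + y)) = law p := by
  unfold law
  exact Measure.map_infinitePi_infinitePi_of_inj (P := fun _ : Site => coin p)
    (f := fun z : Site => z + y) (add_left_injective y)

lemma tau_eq (p : unitInterval) (t : ℕ) (y : Site) :
    (law p).real {ω | y ∉ infected U (start ω) t} = tau U p t := by
  have h1 : {ω : Site → Bool | y ∉ infected U (start ω) t} =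
      (fun (ω : Site → Bool) z => ω (z + y)) ⁻¹' {ω | (0 : Site) ∉ infected U (start ω) t} := by
    ext ω
    simp only [Set.mem_ofPred_eq, Set.mem_preimage]
    have h2 := infected_translate (U := U) (start ω) y t 0
    rw [zero_add] at h2
    rw [h2]
    rfl
  have h2 : Measurable (fun (ω : Site → Bool) z => ω (z + y)) := by
    rw [measurable_pi_iff]
    intro z
    exact measurable_pi_apply _
  rw [h1, tau]
  conv_rhs => rw [← law_shift p y]
  rw [measureReal_def, measureReal_def, Measure.map_apply h2 (measurable_not_infected t 0)]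

lemma tau_nonneg (p : unitInterval) (t : ℕ) : 0 ≤ tau U p t := measureReal_nonneg

lemma tau_anti (p : unitInterval) : Antitone (tau U p) := by
  intro s t hst
  apply measureReal_mono _ (measure_ne_top _ _)
  intro ω hω h
  exact hω (infected_mono _ hst h)

lemma indep_events (p : unitInterval) {F G : Finset Site} (hFG : Disjoint F G)
    {E E' : Set (Site → Bool)}
    (h : ∀ ω ω' : Site → Bool, (∀ x ∈ F, ω x = ω' x) → ω ∈ E → ω' ∈ E)
    (h' : ∀ ω ω' : Site → Bool, (∀ x ∈ G, ω x = ω' x) → ω ∈ E' → ω' ∈ E') :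
    (law p).real (E ∩ E') = (law p).real E * (law p).real E' := by
  have h1 : iIndepFun (fun (i : Site) (ω : Site → Bool) => ω i) (law p) := by
    unfold law
    exact iIndepFun_infinitePi (P := fun _ : Site => coin p) (X := fun _ ω => ω)
      (fun _ => measurable_id)
  have h2 := h1.indepFun_finset F G hFG (fun i => measurable_pi_apply i)
  have h3 := h2.measure_inter_preimage_eq_mul (F.restrict '' E) (G.restrict '' E')
    (Set.toFinite _).measurableSet (Set.toFinite _).measurableSet
  have e1 := local_event h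
  have e2 := local_event h'
  have e3 : (fun (a : Site → Bool) (i : F) => a i) = F.restrict := rfl
  have e4 : (fun (a : Site → Bool) (i : G) => a i) = G.restrict := rfl
  rw [e3, e4, ← e1, ← e2] at h3
  rw [measureReal_def, h3, ENNReal.toReal_mul]
  rfl

lemma card_strip {w : Site} (hw : w ≠ 0) (B n : ℕ) :
    (strip w B n).card ≤ B * (2 * (n * B) + 1) := by
  have hcard : (Finset.Ico (n : ℤ) (n + B) ×ˢ Finset.Icc (-((n * B : ℕ) : ℤ)) (n * B : ℕ)).card =
      B * (2 * (n * B) + 1) := by
    rw [Finset.card_product, Int.card_Ico, Int.card_Icc]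
    congr 1
    · simp
    · omega
  rw [← hcard]
  by_cases h1 : w.1 = 0
  · have h2 : w.2 ≠ 0 := by
      intro h2
      exact hw (Prod.ext h1 h2)
    apply Finset.card_le_card_of_injOn (fun z => (dot z w, z.1))
    · intro z hz
      rw [Finset.mem_coe, mem_strip] at hz
      rw [Finset.mem_coe, Finset.mem_product, Finset.mem_Ico, Finset.mem_Icc]
      exact ⟨hz.2, abs_le.1 hz.1.1⟩
    · intro z _ z' _ he
      simp only [Prod.mk.injEq] at he
      obtain ⟨e1, e2⟩ := he
      simp only [dot, h1, mul_zero, zero_add] at e1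
      exact Prod.ext e2 (mul_right_cancel₀ h2 e1)
  · apply Finset.card_le_card_of_injOn (fun z => (dot z w, z.2))
    · intro z hz
      rw [Finset.mem_coe, mem_strip] at hz
      rw [Finset.mem_coe, Finset.mem_product, Finset.mem_Ico, Finset.mem_Icc]
      exact ⟨hz.2, abs_le.1 hz.1.2⟩
    · intro z _ z' _ he
      simp only [Prod.mk.injEq] at he
      obtain ⟨e1, e2⟩ := he
      simp only [dot, e2, add_left_inj] at e1
      exact Prod.ext (mul_right_cancel₀ h1 e1) e2

/-- A rule which is contained in an open half-plane, with bounds. -/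
structure Good (U : Finset (Finset Site)) (X : Finset Site) (w : Site) (B : ℕ) : Prop where
  mem : X ∈ U
  pos : 0 < B
  rule : ∀ v ∈ X, 1 ≤ dot v w ∧ dot v w ≤ B
  ne : w ≠ 0
  wle : |w.1| + |w.2| ≤ B
  bounds : Bounds U B

variable {X : Finset Site} {w : Site} {B : ℕ}

lemma Good.tau_step (h : Good U X w B) (p : unitInterval) (t : ℕ) :
    tau U p (t + (2 * B * t + 1) * B) ≤
      (strip w B ((2 * B * t + 1) * B)).card * tau U p t ^ 2 := by
  set n := (2 * B * t + 1) * B with hn
  set E : Set (Site → Bool) := {ω | (0 : Site) ∉ infected U (start ω) t} with hE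
  have hsub : {ω : Site → Bool | (0 : Site) ∉ infected U (start ω) (t + n)} ⊆
      ⋃ z ∈ strip w B n, (E ∩ {ω | z ∉ infected U (start ω) t}) := by
    intro ω hω
    have h0 : (0 : Site) ∉ infected U (start ω) t :=
      fun hc => hω (infected_mono _ (Nat.le_add_right _ _) hc)
    by_contra hcon
    apply hω
    apply zero_infected h.mem h.pos h.rule h.bounds
    intro z hz
    by_contra hz'
    apply hcon
    simp only [Set.mem_iUnion]
    exact ⟨z, hz, h0, hz'⟩
  have hle : tau U p (t + n) ≤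
      ∑ z ∈ strip w B n, (law p).real (E ∩ {ω | z ∉ infected U (start ω) t}) := by
    refine (measureReal_mono hsub (measure_ne_top _ _)).trans ?_
    exact measureReal_biUnion_finset_le _ _
  refine hle.trans ?_
  rw [← nsmul_eq_mul]
  apply Finset.sum_le_card_nsmul
  intro z hz
  rw [mem_strip] at hz
  have hdisj : Disjoint (ball 0 (B * t)) (ball z (B * t)) := by
    rw [Finset.disjoint_left]
    intro y hy hy'
    rw [mem_ball] at hy hy'
    simp only [Prod.fst_zero, Prod.snd_zero, sub_zero] at hy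
    have a1 : |z.1| ≤ 2 * (B * t : ℕ) := by
      have := abs_sub_abs_le_abs_sub z.1 y.1
      rw [abs_sub_comm] at this
      linarith [hy.1, hy'.1]
    have a2 : |z.2| ≤ 2 * (B * t : ℕ) := by
      have := abs_sub_abs_le_abs_sub z.2 y.2
      rw [abs_sub_comm] at this
      linarith [hy.2, hy'.2]
    have a3 : dot z w ≤ 2 * (B * t : ℕ) * B := by
      have b1 : z.1 * w.1 ≤ |z.1| * |w.1| := by rw [← abs_mul]; exact le_abs_self _
      have b2 : z.2 * w.2 ≤ |z.2| * |w.2| := by rw [← abs_mul]; exact le_abs_self _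
      have b3 : |z.1| * |w.1| ≤ 2 * (B * t : ℕ) * |w.1| :=
        mul_le_mul_of_nonneg_right a1 (abs_nonneg _)
      have b4 : |z.2| * |w.2| ≤ 2 * (B * t : ℕ) * |w.2| :=
        mul_le_mul_of_nonneg_right a2 (abs_nonneg _)
      have b5 : 2 * ((B * t : ℕ) : ℤ) * (|w.1| + |w.2|) ≤ 2 * (B * t : ℕ) * B :=
        mul_le_mul_of_nonneg_left h.wle (by positivity)
      unfold dot
      nlinarith
    have a4 := hz.2.1
    have a5 : (0 : ℤ) < B := by exact_mod_cast h.pos
    rw [hn] at a4
    push_cast at a3 a4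
    nlinarith
  rw [indep_events p hdisj (event_local_not h.bounds t 0) (event_local_not h.bounds t z),
    tau_eq p t 0, tau_eq p t z, sq]

lemma Good.tau_step' (h : Good U X w B) (p : unitInterval) {t : ℕ} (ht : 1 ≤ t) :
    tau U p (4 * B ^ 2 * t) ≤ (7 * B ^ 4 * t : ℕ) * tau U p t ^ 2 := by
  have hB := h.pos
  have hn : (2 * B * t + 1) * B ≤ 3 * B ^ 2 * t := by
    have : 1 ≤ B * t := Nat.mul_pos hB ht
    nlinarith
  have h1 : t + (2 * B * t + 1) * B ≤ 4 * B ^ 2 * t := by
    have : t ≤ B ^ 2 * t := Nat.le_mul_of_pos_left t (by positivity)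
    nlinarith
  refine (tau_anti p h1).trans ((h.tau_step p t).trans ?_)
  apply mul_le_mul_of_nonneg_right _ (sq_nonneg _)
  have h2 := card_strip h.ne B ((2 * B * t + 1) * B)
  have h3 : B * (2 * ((2 * B * t + 1) * B * B) + 1) ≤ 7 * B ^ 4 * t := by
    have e1 : (2 * B * t + 1) * B * B ≤ 3 * B ^ 3 * t := by
      calc (2 * B * t + 1) * B * B ≤ 3 * B ^ 2 * t * B := Nat.mul_le_mul_right _ hn
        _ = 3 * B ^ 3 * t := by ring
    have e2 : 1 ≤ B ^ 3 * t := Nat.mul_pos (by positivity) ht
    calc B * (2 * ((2 * B * t + 1) * B * B) + 1) ≤ B * (7 * (B ^ 3 * t)) := by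
          apply Nat.mul_le_mul_left
          nlinarith
      _ = 7 * B ^ 4 * t := by ring
  exact_mod_cast h2.trans h3

/-- the rescaled quantity `a_t = 28 B ^ 6 t τ_t` -/
noncomputable def aa (U : Finset (Finset Site)) (B : ℕ) (p : unitInterval) (t : ℕ) : ℝ :=
  28 * (B : ℝ) ^ 6 * t * tau U p t

lemma aa_nonneg (p : unitInterval) (t : ℕ) : 0 ≤ aa U B p t := by
  unfold aa
  have := tau_nonneg (U := U) p t
  positivity

lemma Good.aa_step (h : Good U X w B) (p : unitInterval) {t : ℕ} (ht : 1 ≤ t) :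
    aa U B p (4 * B ^ 2 * t) ≤ aa U B p t ^ 2 := by
  have h1 := h.tau_step' p ht
  unfold aa
  push_cast at h1 ⊢
  calc 28 * (B : ℝ) ^ 6 * (4 * (B : ℝ) ^ 2 * t) * tau U p (4 * B ^ 2 * t)
      ≤ 28 * (B : ℝ) ^ 6 * (4 * (B : ℝ) ^ 2 * t) * (7 * (B : ℝ) ^ 4 * t * tau U p t ^ 2) := by
        apply mul_le_mul_of_nonneg_left h1
        positivity
    _ = _ := by ring

lemma Good.aa_iter (h : Good U X w B) (p : unitInterval) {t : ℕ} (ht : 1 ≤ t) (k : ℕ) :
    1 ≤ (4 * B ^ 2) ^ k * t ∧ aa U B p ((4 * B ^ 2) ^ k * t) ≤ aa U B p t ^ (2 ^ k) := by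
  have hB := h.pos
  induction k with
  | zero => simpa using ht
  | succ k ih =>
    obtain ⟨h1, h2⟩ := ih
    have e : (4 * B ^ 2) ^ (k + 1) * t = 4 * B ^ 2 * ((4 * B ^ 2) ^ k * t) := by ring
    rw [e]
    constructor
    · exact Nat.mul_pos (by positivity) h1
    · refine (h.aa_step p h1).trans ?_
      calc aa U B p ((4 * B ^ 2) ^ k * t) ^ 2 ≤ (aa U B p t ^ (2 ^ k)) ^ 2 :=
            pow_le_pow_left₀ (aa_nonneg _ _) h2 2
        _ = aa U B p t ^ (2 ^ (k + 1)) := by rw [← pow_mul, pow_succ]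

/-- If `a_t < 1` for some `t ≥ 1` then `τ_s → 0`. -/
lemma Good.tau_tendsto (h : Good U X w B) (p : unitInterval) {t : ℕ} (ht : 1 ≤ t)
    (ha : aa U B p t < 1) : Tendsto (tau U p) atTop (𝓝 0) := by
  have hB := h.pos
  have h1 : Tendsto (fun k : ℕ => tau U p ((4 * B ^ 2) ^ k * t)) atTop (𝓝 0) := by
    have h2 : Tendsto (fun k : ℕ => aa U B p t ^ (2 ^ k)) atTop (𝓝 0) :=
      (tendsto_pow_atTop_nhds_zero_of_lt_one (aa_nonneg _ _) ha).comp
        (tendsto_pow_atTop_atTop_of_one_lt (by norm_num))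
    refine squeeze_zero (fun k => tau_nonneg _ _) (fun k => ?_) h2
    obtain ⟨h3, h4⟩ := h.aa_iter p ht k
    refine le_trans ?_ h4
    unfold aa
    have h5 : (1 : ℝ) ≤ 28 * (B : ℝ) ^ 6 * (((4 * B ^ 2) ^ k * t : ℕ) : ℝ) := by
      have e1 : (1 : ℝ) ≤ (((4 * B ^ 2) ^ k * t : ℕ) : ℝ) := by exact_mod_cast h3
      have e2 : (1 : ℝ) ≤ (B : ℝ) ^ 6 := one_le_pow₀ (by exact_mod_cast hB)
      nlinarith
    have := tau_nonneg (U := U) p ((4 * B ^ 2) ^ k * t)
    nlinarith
  -- monotone
  have h6 := tendsto_atTop_ciInf (tau_anti (U := U) p)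
    ⟨0, by rintro x ⟨s, rfl⟩; exact tau_nonneg _ _⟩
  have h7 : Tendsto (fun k : ℕ => (4 * B ^ 2) ^ k * t) atTop atTop := by
    apply Tendsto.atTop_mul_const' ht
    apply tendsto_pow_atTop_atTop_of_one_lt
    have : 0 < B ^ 2 := by positivity
    omega
  have h8 := tendsto_nhds_unique (h6.comp h7) h1
  rw [← h8]
  exact h6

lemma mem_clos {A : Set Site} {x : Site} : x ∈ clos U A ↔ ∃ t, x ∈ infected U A t := by
  rw [clos, Set.mem_iUnion]

lemma measurable_percolation : MeasurableSet (percolation U) := by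
  have : percolation U = ⋂ x : Site, ⋃ t : ℕ, {ω | x ∈ infected U (start ω) t} := by
    ext ω
    simp only [percolation, Set.mem_ofPred_eq, Set.mem_iInter, Set.mem_iUnion]
    rw [Set.eq_univ_iff_forall]
    simp only [mem_clos]
  rw [this]
  exact MeasurableSet.iInter fun x => MeasurableSet.iUnion fun t => measurable_infected t x

lemma percolation_of_tendsto (p : unitInterval) (h : Tendsto (tau U p) atTop (𝓝 0)) :
    law p (percolation U) = 1 := by
  rw [prob_compl_eq_zero_iff measurable_percolation |>.symm]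
  have h1 : (percolation U)ᶜ ⊆ ⋃ x : Site, {ω | x ∉ clos U (start ω)} := by
    intro ω hω
    simp only [percolation, Set.mem_compl_iff, Set.mem_ofPred_eq] at hω
    rw [Set.eq_univ_iff_forall] at hω
    push Not at hω
    simpa using hω
  refine measure_mono_null h1 ?_
  rw [measure_iUnion_null_iff]
  intro x
  have h2 : ∀ t : ℕ, (law p).real {ω | x ∉ clos U (start ω)} ≤ tau U p t := by
    intro t
    rw [← tau_eq p t x]
    apply measureReal_mono _ (measure_ne_top _ _)
    intro ω hω hc
    exact hω (mem_clos.2 ⟨t, hc⟩)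
  have h3 : (law p).real {ω | x ∉ clos U (start ω)} ≤ 0 :=
    ge_of_tendsto' h h2
  have h4 : (law p).real {ω | x ∉ clos U (start ω)} = 0 := le_antisymm h3 measureReal_nonneg
  rw [measureReal_def, ENNReal.toReal_eq_zero_iff] at h4
  exact h4.resolve_right (measure_ne_top _ _)

end Pool.Agent.U151.UB
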